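import Mathlib

/-!
# Elementary lemmas on ordinary differential equations: global existence, barriers, hitting times,
gluing
-/

open Set Filter Topology Metric
open scoped NNReal

namespace Pool.Agent.H78.RF

section exist

variable {E : Type} [NormedAddCommGroup E] [NormedSpace ℝ E] [FiniteDimensional ℝ E]

/-- bounded globally Lipschitz fields have global integral curves (as in `Pool.Agent.H65.MG`) -/
theorem exists_global (v : E → E) (K : ℝ≥0) (hv : LipschitzWith K v) (C : ℝ)
    (hC : ∀ x, ‖v x‖ ≤ C) (p : E) :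
    ∃ γ : ℝ → E, γ 0 = p ∧ ∀ t, HasDerivAt γ (v (γ t)) t := by
  have : CompleteSpace E := FiniteDimensional.complete ℝ E
  have hC0 : 0 ≤ C := (norm_nonneg _).trans (hC 0)
  have key : ∀ T : ℝ, 0 < T → ∃ α : ℝ → E, α 0 = p ∧
      ∀ t ∈ Ioo (-T) T, HasDerivAt α (v (α t)) t := by
    intro T hT
    have hpl : IsPicardLindelof (fun _ => v) (tmin := -T) (tmax := T)
        ⟨0, by constructor <;> linarith⟩ p (⟨C * T, by positivity⟩ : ℝ≥0) 0
        (⟨C, hC0⟩ : ℝ≥0) K := by
      apply IsPicardLindelof.of_time_independent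
      · intro x _; exact hC x
      · exact hv.lipschitzOnWith
      · have e : max (T - ((⟨0, by constructor <;> linarith⟩ : Icc (-T) T) : ℝ))
            (((⟨0, by constructor <;> linarith⟩ : Icc (-T) T) : ℝ) - (-T)) = T := by
          simp
        rw [e]
        simp only [NNReal.coe_zero, sub_zero]
        exact le_rfl
    obtain ⟨α, hα0, hα⟩ := hpl.exists_eq_forall_mem_Icc_hasDerivWithinAt₀
    refine ⟨α, hα0, fun t ht => ?_⟩
    exact (hα t (Ioo_subset_Icc_self ht)).hasDerivAt (Icc_mem_nhds ht.1 ht.2)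
  choose! α hα0 hα using key
  have agree : ∀ T T' : ℝ, 0 < T → T ≤ T' → EqOn (α T) (α T') (Ioo (-T) T) := by
    intro T T' hT hTT
    refine ODE_solution_unique_of_mem_Ioo (v := fun _ => v) (s := fun _ => univ) (K := K)
      (t₀ := 0) (fun _ _ => hv.lipschitzOnWith) ⟨by linarith, hT⟩ ?_ ?_ ?_
    · intro t ht
      exact ⟨hα T hT t ht, trivial⟩
    · intro t ht
      exact ⟨hα T' (by linarith) t ⟨by linarith [ht.1], by linarith [ht.2]⟩, trivial⟩
    · rw [hα0 T hT, hα0 T' (by linarith)]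
  refine ⟨fun t => α (|t| + 1) t, ?_, ?_⟩
  · simp only [abs_zero, zero_add]
    exact hα0 1 one_pos
  · intro t
    have hpos : 0 < |t| + 2 := by positivity
    have hmem : t ∈ Ioo (-(|t| + 2)) (|t| + 2) := by
      constructor
      · linarith [neg_abs_le t]
      · linarith [le_abs_self t]
    have heq : (fun s => α (|s| + 1) s) =ᶠ[𝓝 t] α (|t| + 2) := by
      have h1 : ∀ᶠ s in 𝓝 t, |s| < |t| + 1 :=
        (continuous_abs.tendsto t).eventually (gt_mem_nhds (by linarith))
      filter_upwards [h1] with s hs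
      apply agree (|s| + 1) (|t| + 2) (by positivity) (by linarith)
      constructor
      · linarith [neg_abs_le s]
      · linarith [le_abs_self s]
    have h2 := hα (|t| + 2) hpos t hmem
    have h3 : α (|t| + 1) t = α (|t| + 2) t := heq.self_of_nhds
    rw [← h3] at h2
    exact h2.congr_of_eventuallyEq heq

end exist

/-- barrier lemma -/
theorem barrier {g g' : ℝ → ℝ} {a b c : ℝ} (hab : a ≤ b) (hg : ContinuousOn g (Icc a b))
    (hd : ∀ x ∈ Ioo a b, HasDerivAt g (g' x) x) (h : ∀ x ∈ Ioo a b, c < g x → g' x ≤ 0)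
    (ha : g a ≤ c) : g b ≤ c := by
  by_contra hcon
  push Not at hcon
  obtain ⟨T, hT⟩ : ∃ T, T = {x ∈ Icc a b | g x ≤ c} := ⟨_, rfl⟩
  have hTc : IsCompact T := by
    have : IsClosed T := by
      rw [hT]
      exact hg.preimage_isClosed_of_isClosed isClosed_Icc isClosed_Iic
    exact isCompact_Icc.of_isClosed_subset this (by rw [hT]; exact fun x hx => hx.1)
  have hne : T.Nonempty := ⟨a, by rw [hT]; exact ⟨left_mem_Icc.2 hab, ha⟩⟩
  obtain ⟨x0, hx0, hmax⟩ := hTc.exists_isGreatest hne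
  have hx0' := hx0
  rw [hT] at hx0'
  have hlt : x0 < b := lt_of_le_of_ne hx0'.1.2 (fun e => by
    have := hx0'.2; rw [e] at this; linarith)
  obtain ⟨ξ, hξ, hξ2⟩ := exists_hasDerivAt_eq_slope g g' hlt
    (hg.mono (Icc_subset_Icc_left hx0'.1.1))
    (fun x hx => hd x ⟨lt_of_le_of_lt hx0'.1.1 hx.1, hx.2⟩)
  have hgt : c < g ξ := by
    by_contra hle
    push Not at hle
    have : ξ ∈ T := by
      rw [hT]
      exact ⟨⟨hx0'.1.1.trans hξ.1.le, hξ.2.le⟩, hle⟩
    exact absurd (hmax this) (not_le.2 hξ.1)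
  have h1 := h ξ ⟨lt_of_le_of_lt hx0'.1.1 hξ.1, hξ.2⟩ hgt
  have h2 : 0 < b - x0 := by linarith
  have h3 : g b - g x0 = g' ξ * (b - x0) := by
    rw [hξ2]; field_simp
  have h4 : g' ξ * (b - x0) ≤ 0 := mul_nonpos_of_nonpos_of_nonneg h1 h2.le
  linarith [hx0'.2]

/-- first hitting time -/
theorem hitting {g : ℝ → ℝ} {a b c : ℝ} (hab : a ≤ b) (hg : ContinuousOn g (Icc a b))
    (ha : c < g a) (hb : g b ≤ c) :
    ∃ t ∈ Ioc a b, g t = c ∧ ∀ s ∈ Ico a t, c < g s := by
  obtain ⟨T, hT⟩ : ∃ T, T = {x ∈ Icc a b | g x ≤ c} := ⟨_, rfl⟩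
  have hTc : IsCompact T := by
    have : IsClosed T := by
      rw [hT]
      exact hg.preimage_isClosed_of_isClosed isClosed_Icc isClosed_Iic
    exact isCompact_Icc.of_isClosed_subset this (by rw [hT]; exact fun x hx => hx.1)
  have hne : T.Nonempty := ⟨b, by rw [hT]; exact ⟨right_mem_Icc.2 hab, hb⟩⟩
  obtain ⟨t, ht, hmin⟩ := hTc.exists_isLeast hne
  have ht' := ht
  rw [hT] at ht'
  have hlt : a < t := lt_of_le_of_ne ht'.1.1 (fun e => by
    have := ht'.2; rw [← e] at this; linarith)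
  have hgt : ∀ s ∈ Ico a t, c < g s := by
    intro s hs
    by_contra hle
    push Not at hle
    have : s ∈ T := by
      rw [hT]
      exact ⟨⟨hs.1, hs.2.le.trans ht'.1.2⟩, hle⟩
    exact absurd (hmin this) (not_le.2 hs.2)
  refine ⟨t, ⟨hlt, ht'.1.2⟩, le_antisymm ht'.2 ?_, hgt⟩
  have hc : ContinuousWithinAt g (Ico a t) t :=
    (hg t ht'.1).mono (fun s hs => ⟨hs.1, hs.2.le.trans ht'.1.2⟩)
  have hcl : t ∈ closure (Ico a t) := by
    rw [closure_Ico hlt.ne]
    exact right_mem_Icc.2 hlt.le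
  have hnb : (𝓝[Ico a t] t).NeBot := mem_closure_iff_nhdsWithin_neBot.1 hcl
  refine ge_of_tendsto (f := g) (x := 𝓝[Ico a t] t) hc ?_
  filter_upwards [self_mem_nhdsWithin] with s hs
  exact (hgt s hs).le

/-- gluing two functions at a point -/
theorem glue {F G F' G' : ℝ → ℝ} {c : ℝ} (hF : ∀ x ≤ c, HasDerivAt F (F' x) x)
    (hG : ∀ x ≥ c, HasDerivAt G (G' x) x) (h0 : F c = G c) (h1 : F' c = G' c) (x : ℝ) :
    HasDerivAt (fun x => if x ≤ c then F x else G x) (if x ≤ c then F' x else G' x) x := by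
  rcases lt_trichotomy x c with hx | hx | hx
  · rw [if_pos hx.le]
    refine (hF x hx.le).congr_of_eventuallyEq ?_
    filter_upwards [gt_mem_nhds hx] with y hy
    rw [if_pos hy.le]
  · rw [hx, if_pos le_rfl]
    have hl : HasDerivWithinAt (fun x => if x ≤ c then F x else G x) (F' c) (Iic c) c := by
      refine (hF c le_rfl).hasDerivWithinAt.congr (fun y hy => if_pos hy) (if_pos le_rfl)
    have hr : HasDerivWithinAt (fun x => if x ≤ c then F x else G x) (F' c) (Ici c) c := by
      rw [h1]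
      refine (hG c le_rfl).hasDerivWithinAt.congr (fun y hy => ?_) ?_
      · rcases eq_or_lt_of_le (show c ≤ y from hy) with e | hlt
        · rw [← e, if_pos le_rfl, h0]
        · rw [if_neg (not_le.2 hlt)]
      · rw [if_pos le_rfl, h0]
    have := hl.union hr
    rw [Iic_union_Ici] at this
    exact this.hasDerivAt univ_mem
  · rw [if_neg (not_le.2 hx)]
    refine (hG x hx.le).congr_of_eventuallyEq ?_
    filter_upwards [lt_mem_nhds hx] with y hy
    rw [if_neg (not_le.2 hy)]

/-- C² from explicit derivatives -/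
theorem contDiff_two {q q1 q2 : ℝ → ℝ} (h1 : ∀ x, HasDerivAt q (q1 x) x)
    (h2 : ∀ x, HasDerivAt q1 (q2 x) x) (h3 : Continuous q2) :
    ContDiff ℝ 2 q ∧ deriv q = q1 ∧ deriv (deriv q) = q2 := by
  have e1 : deriv q = q1 := funext fun x => (h1 x).deriv
  have e2 : deriv q1 = q2 := funext fun x => (h2 x).deriv
  refine ⟨?_, e1, by rw [e1, e2]⟩
  rw [show (2 : WithTop ℕ∞) = 1 + 1 by norm_num, contDiff_succ_iff_deriv]
  refine ⟨fun x => (h1 x).differentiableAt, by simp, ?_⟩
  rw [e1, contDiff_one_iff_deriv, e2]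
  exact ⟨fun x => (h2 x).differentiableAt, h3⟩

/-- cube of the positive part -/
noncomputable def c3 (x : ℝ) : ℝ := if x ≤ 0 then 0 else x ^ 3
noncomputable def c2 (x : ℝ) : ℝ := if x ≤ 0 then 0 else 3 * x ^ 2
noncomputable def c1 (x : ℝ) : ℝ := if x ≤ 0 then 0 else 6 * x

theorem hasDerivAt_c3 (x : ℝ) : HasDerivAt c3 (c2 x) x :=
  glue (F := fun _ => 0) (G := fun x => x ^ 3) (F' := fun _ => 0) (G' := fun x => 3 * x ^ 2) (c := 0)
    (fun x _ => hasDerivAt_const x 0) (fun x _ => by simpa using hasDerivAt_pow 3 x) (by simp)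
    (by simp) x

theorem hasDerivAt_c2 (x : ℝ) : HasDerivAt c2 (c1 x) x :=
  glue (F := fun _ => 0) (G := fun x => 3 * x ^ 2) (F' := fun _ => 0) (G' := fun x => 6 * x)
    (c := 0)
    (fun x _ => hasDerivAt_const x 0) (fun x _ => by
      have := (hasDerivAt_pow 2 x).const_mul (3 : ℝ)
      have e : (3 : ℝ) * (((2 : ℕ) : ℝ) * x ^ (2 - 1)) = 6 * x := by norm_num; ring
      rw [e] at this
      exact this) (by norm_num)
    (by norm_num) x

theorem continuous_c1 : Continuous c1 := by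
  unfold c1
  exact Continuous.if_le continuous_const (by fun_prop) continuous_id continuous_const
    (fun x hx => by rw [hx]; simp)

theorem c3_nonneg (x : ℝ) : 0 ≤ c3 x := by
  unfold c3
  split_ifs with h
  · exact le_rfl
  · push Not at h; positivity

end Pool.Agent.H78.RF
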