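import Pool.Agent.H91.RF.TargetsF

/-!
# Associativity of space-time convolutions dominated by heat kernels
-/

open MeasureTheory Set Filter Topology Metric
open Pool.Agent.H29.TF
open Pool.Agent.H91.RD

namespace Pool.Agent.H78.RF

variable {N : ℕ}

/-- space-time convolution -/
noncomputable def cv (a b : ℝ → E N → E N → ℝ) (ρ : ℝ) (x y : E N) : ℝ :=
  ∫ σ in (0 : ℝ)..ρ, ∫ z, a σ x z * b (ρ - σ) z y

/-- a kernel which is jointly measurable and dominated by the heat kernel -/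
structure Dk (C R : ℝ) (a : ℝ → E N → E N → ℝ) : Prop where
  C0 : 0 ≤ C
  meas : Measurable (fun p : ℝ × (E N × E N) => a p.1 p.2.1 p.2.2)
  le : ∀ σ, 0 < σ → σ < R → ∀ x y, |a σ x y| ≤ C * hk σ (x - y)

theorem lint_semigroup {s t : ℝ} (hs : 0 < s) (ht : 0 < t) (x y : E N) :
    ∫⁻ w : E N, ENNReal.ofReal (hk s (x - w)) * ENNReal.ofReal (hk t (w - y)) =
      ENNReal.ofReal (hk (s + t) (x - y)) := by
  rw [← semigroup_hk hs ht x y]
  have hint : Integrable (fun w : E N => hk s (x - w) * hk t (w - y)) := by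
    have h1 : Integrable (fun w : E N => hk s (x - w)) := integrable_hk_sub hs x
    exact h1.mul_bdd (c := hk t (0 : E N)) (g := fun w => hk t (w - y))
      ((continuous_hk t).comp (by fun_prop : Continuous fun w : E N => w - y)).aestronglyMeasurable
      (Filter.Eventually.of_forall fun w => by
        rw [Real.norm_eq_abs, abs_of_nonneg (hk_nonneg ht.le _)]
        exact hk_le ht _)
  rw [ofReal_integral_eq_lintegral_ofReal hint
    (Filter.Eventually.of_forall fun w => mul_nonneg (hk_nonneg hs.le _) (hk_nonneg ht.le _))]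
  apply lintegral_congr
  intro w
  rw [ENNReal.ofReal_mul (hk_nonneg hs.le _)]

/-- the integrand -/
noncomputable def Gi (a b c : ℝ → E N → E N → ℝ) (ρ : ℝ) (x y : E N)
    (p : (ℝ × E N) × (ℝ × E N)) : ℝ :=
  if p.1.1 < p.2.1 then a p.1.1 x p.1.2 * b (p.2.1 - p.1.1) p.1.2 p.2.2 *
    c (ρ - p.2.1) p.2.2 y else 0

/-- the measure -/
noncomputable def Mm (N : ℕ) (ρ : ℝ) : Measure (ℝ × E N) :=
  (volume.restrict (Ioo (0 : ℝ) ρ)).prod volume

instance (ρ : ℝ) : SFinite (Mm N ρ) := by unfold Mm; infer_instance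

theorem meas_Gi {a b c : ℝ → E N → E N → ℝ} {Ca Cb Cc R ρ : ℝ} (ha : Dk Ca R a) (hb : Dk Cb R b)
    (hc : Dk Cc R c) (x y : E N) : Measurable (Gi a b c ρ x y) := by
  unfold Gi
  refine Measurable.ite (measurableSet_lt (by fun_prop) (by fun_prop)) ?_ measurable_const
  refine Measurable.mul (Measurable.mul ?_ ?_) ?_
  · exact ha.meas.comp (f := fun p : (ℝ × E N) × (ℝ × E N) => (p.1.1, (x, p.1.2))) (by fun_prop)
  · exact hb.meas.comp (f := fun p : (ℝ × E N) × (ℝ × E N) =>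
      (p.2.1 - p.1.1, (p.1.2, p.2.2))) (by fun_prop)
  · exact hc.meas.comp (f := fun p : (ℝ × E N) × (ℝ × E N) => (ρ - p.2.1, (p.2.2, y)))
      (by fun_prop)

theorem integrable_Gi {a b c : ℝ → E N → E N → ℝ} {Ca Cb Cc ρ : ℝ} (ha : Dk Ca ρ a) (hb : Dk Cb ρ b)
    (hc : Dk Cc ρ c) (x y : E N) :
    Integrable (Gi a b c ρ x y) ((Mm N ρ).prod (Mm N ρ)) := by
  have hm := meas_Gi ha hb hc (ρ := ρ) x y
  refine ⟨hm.aestronglyMeasurable, ?_⟩
  unfold HasFiniteIntegral
  rw [lintegral_prod _ hm.enorm.aemeasurable]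
  -- bound of the inner integral
  have key : ∀ p : ℝ × E N, p.1 ∈ Ioo 0 ρ → ∫⁻ q, ‖Gi a b c ρ x y (p, q)‖ₑ ∂(Mm N ρ) ≤
      ENNReal.ofReal (Ca * Cb * Cc * ρ) *
        (ENNReal.ofReal (hk p.1 (x - p.2)) * ENNReal.ofReal (hk (ρ - p.1) (p.2 - y))) := by
    intro p hp
    unfold Mm
    rw [lintegral_prod _ (by
      exact (hm.comp (measurable_const.prodMk measurable_id)).enorm.aemeasurable)]
    have h1 : ∀ σ' ∈ Ioo 0 ρ, ∫⁻ z' : E N, ‖Gi a b c ρ x y (p, (σ', z'))‖ₑ ≤
        ENNReal.ofReal (Ca * Cb * Cc) *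
        (ENNReal.ofReal (hk p.1 (x - p.2)) * ENNReal.ofReal (hk (ρ - p.1) (p.2 - y))) := by
      intro σ' hσ'
      by_cases hlt : p.1 < σ'
      · have h2 : ∀ z' : E N, ‖Gi a b c ρ x y (p, (σ', z'))‖ₑ ≤
            ENNReal.ofReal (Ca * Cb * Cc) * ENNReal.ofReal (hk p.1 (x - p.2)) *
            (ENNReal.ofReal (hk (σ' - p.1) (p.2 - z')) * ENNReal.ofReal (hk (ρ - σ') (z' - y))) := by
          intro z'
          have e1 := ha.le p.1 hp.1 hp.2 x p.2
          have e2 := hb.le (σ' - p.1) (by linarith) (by linarith [hp.1, hσ'.2]) p.2 z'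
          have e3 := hc.le (ρ - σ') (by linarith [hσ'.2]) (by linarith [hσ'.1]) z' y
          have n1 := hk_nonneg hp.1.le (x - p.2)
          have n2 := hk_nonneg (t := σ' - p.1) (by linarith) (p.2 - z')
          have n3 := hk_nonneg (t := ρ - σ') (by linarith [hσ'.2]) (z' - y)
          rw [← ENNReal.ofReal_mul (mul_nonneg (mul_nonneg ha.C0 hb.C0) hc.C0),
            ← ENNReal.ofReal_mul n2, ← ENNReal.ofReal_mul
              (mul_nonneg (mul_nonneg (mul_nonneg ha.C0 hb.C0) hc.C0) n1),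
            Real.enorm_eq_ofReal_abs]
          apply ENNReal.ofReal_le_ofReal
          unfold Gi
          rw [if_pos hlt, abs_mul, abs_mul]
          calc _ ≤ (Ca * hk p.1 (x - p.2)) * (Cb * hk (σ' - p.1) (p.2 - z')) *
                (Cc * hk (ρ - σ') (z' - y)) := by
                gcongr
                · exact mul_nonneg (mul_nonneg ha.C0 n1) (mul_nonneg hb.C0 n2)
                · exact mul_nonneg ha.C0 n1
            _ = _ := by ring
        refine (lintegral_mono h2).trans ?_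
        rw [lintegral_const_mul' _ _ (by
          exact ENNReal.mul_ne_top ENNReal.ofReal_ne_top ENNReal.ofReal_ne_top)]
        rw [lint_semigroup (by linarith) (by linarith [hσ'.2]) p.2 y]
        rw [show σ' - p.1 + (ρ - σ') = ρ - p.1 by ring, mul_assoc]
      · have h2 : ∀ z' : E N, ‖Gi a b c ρ x y (p, (σ', z'))‖ₑ = 0 := by
          intro z'
          unfold Gi
          rw [if_neg hlt]
          simp
        rw [lintegral_congr h2]
        simp
    refine (setLIntegral_mono' measurableSet_Ioo h1).trans ?_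
    rw [lintegral_const, Measure.restrict_apply MeasurableSet.univ, univ_inter, Real.volume_Ioo,
      sub_zero]
    rw [mul_comm, ← mul_assoc, ← ENNReal.ofReal_mul (by linarith [hp.1, hp.2] : (0:ℝ) ≤ ρ)]
    rw [mul_comm ρ]
  have hae : ∀ᵐ p ∂(Mm N ρ), p.1 ∈ Ioo 0 ρ := by
    unfold Mm
    rw [Measure.ae_prod_iff_ae_ae (measurableSet_Ioo.preimage measurable_fst)]
    filter_upwards [ae_restrict_mem measurableSet_Ioo] with σ hσ
    exact Filter.Eventually.of_forall fun z => hσ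
  refine lt_of_le_of_lt (lintegral_mono_ae (hae.mono key)) ?_
  unfold Mm
  have hmm : Measurable (fun p : ℝ × E N => ENNReal.ofReal (Ca * Cb * Cc * ρ) *
        (ENNReal.ofReal (hk p.1 (x - p.2)) * ENNReal.ofReal (hk (ρ - p.1) (p.2 - y)))) := by
    have m1 : Measurable (fun p : ℝ × E N => ENNReal.ofReal (hk p.1 (x - p.2))) :=
      (measurable_hk_uncurry.comp
        (g := fun p : ℝ × E N => hk p.1 p.2) (f := fun p : ℝ × E N => (p.1, x - p.2))
        (by fun_prop)).ennreal_ofReal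
    have m2 : Measurable (fun p : ℝ × E N => ENNReal.ofReal (hk (ρ - p.1) (p.2 - y))) :=
      (measurable_hk_uncurry.comp
        (g := fun p : ℝ × E N => hk p.1 p.2) (f := fun p : ℝ × E N => (ρ - p.1, p.2 - y))
        (by fun_prop)).ennreal_ofReal
    exact measurable_const.mul (m1.mul m2)
  rw [lintegral_prod _ hmm.aemeasurable]
  have h3 : ∀ σ ∈ Ioo 0 ρ, ∫⁻ z : E N, ENNReal.ofReal (Ca * Cb * Cc * ρ) *
        (ENNReal.ofReal (hk σ (x - z)) * ENNReal.ofReal (hk (ρ - σ) (z - y))) ≤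
        ENNReal.ofReal (Ca * Cb * Cc * ρ) * ENNReal.ofReal (hk ρ (x - y)) := by
    intro σ hσ
    rw [lintegral_const_mul' _ _ ENNReal.ofReal_ne_top,
      lint_semigroup hσ.1 (by linarith [hσ.2]) x y, show σ + (ρ - σ) = ρ by ring]
  refine lt_of_le_of_lt (setLIntegral_mono' measurableSet_Ioo h3) ?_
  rw [lintegral_const, Measure.restrict_apply MeasurableSet.univ, univ_inter, Real.volume_Ioo]
  exact ENNReal.mul_lt_top (ENNReal.mul_lt_top ENNReal.ofReal_lt_top ENNReal.ofReal_lt_top)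
    ENNReal.ofReal_lt_top

theorem cv_assoc {a b c : ℝ → E N → E N → ℝ} {Ca Cb Cc ρ : ℝ} (hρ : 0 < ρ) (ha : Dk Ca ρ a)
    (hb : Dk Cb ρ b) (hc : Dk Cc ρ c) (x y : E N) :
    cv (cv a b) c ρ x y = cv a (cv b c) ρ x y := by
  have hI := integrable_Gi ha hb hc x y
  have hL : cv (cv a b) c ρ x y =
      ∫ q, ∫ p, Gi a b c ρ x y (p, q) ∂(Mm N ρ) ∂(Mm N ρ) := by
    have h1 : Integrable (fun q => ∫ p, Gi a b c ρ x y (p, q) ∂(Mm N ρ)) (Mm N ρ) :=
      hI.integral_prod_right
    have h2 := hI.prod_left_ae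
    have h3 : ∫ q, ∫ p, Gi a b c ρ x y (p, q) ∂(Mm N ρ) ∂(Mm N ρ) =
        ∫ σ' in Ioo 0 ρ, ∫ z' : E N, ∫ p, Gi a b c ρ x y (p, (σ', z')) ∂(Mm N ρ) :=
      integral_prod _ h1
    rw [h3]
    unfold cv
    rw [intervalIntegral.integral_of_le hρ.le, integral_Ioc_eq_integral_Ioo]
    have h4 : ∀ᵐ σ' ∂(volume.restrict (Ioo (0 : ℝ) ρ)), ∀ᵐ z' : E N,
        Integrable (fun p => Gi a b c ρ x y (p, (σ', z'))) (Mm N ρ) :=
      Measure.ae_ae_of_ae_prod h2
    apply integral_congr_ae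
    filter_upwards [h4, ae_restrict_mem measurableSet_Ioo] with σ' h5 hσ'
    apply integral_congr_ae
    filter_upwards [h5] with z' h6
    have h7 : ∫ p, Gi a b c ρ x y (p, (σ', z')) ∂(Mm N ρ) =
        ∫ σ in Ioo 0 ρ, ∫ z : E N, Gi a b c ρ x y ((σ, z), (σ', z')) := integral_prod _ h6
    rw [h7, intervalIntegral.integral_of_le hσ'.1.le, integral_Ioc_eq_integral_Ioo]
    have h8 : ∀ σ : ℝ, (∫ z : E N, Gi a b c ρ x y ((σ, z), (σ', z'))) =
        (Iio σ').indicator (fun σ => (∫ z : E N, a σ x z * b (σ' - σ) z z') *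
          c (ρ - σ') z' y) σ := by
      intro σ
      by_cases h : σ < σ'
      · rw [indicator_of_mem (show σ ∈ Iio σ' from h), ← integral_mul_const]
        unfold Gi
        simp only [h, if_true]
      · rw [indicator_of_notMem (show σ ∉ Iio σ' from h)]
        unfold Gi
        simp only [h, if_false, integral_zero]
    simp_rw [h8]
    rw [setIntegral_indicator measurableSet_Iio,
      show Ioo 0 ρ ∩ Iio σ' = Ioo 0 σ' by
        ext τ; simp only [mem_inter_iff, mem_Ioo, mem_Iio]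
        exact ⟨fun h => ⟨h.1.1, h.2⟩, fun h => ⟨⟨h.1, h.2.trans hσ'.2⟩, h.2⟩⟩,
      integral_mul_const]
  have hR : cv a (cv b c) ρ x y =
      ∫ p, ∫ q, Gi a b c ρ x y (p, q) ∂(Mm N ρ) ∂(Mm N ρ) := by
    have h1 : Integrable (fun p => ∫ q, Gi a b c ρ x y (p, q) ∂(Mm N ρ)) (Mm N ρ) :=
      hI.integral_prod_left
    have h2 := hI.prod_right_ae
    have h3 : ∫ p, ∫ q, Gi a b c ρ x y (p, q) ∂(Mm N ρ) ∂(Mm N ρ) =
        ∫ σ in Ioo 0 ρ, ∫ z : E N, ∫ q, Gi a b c ρ x y ((σ, z), q) ∂(Mm N ρ) :=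
      integral_prod _ h1
    rw [h3]
    unfold cv
    rw [intervalIntegral.integral_of_le hρ.le, integral_Ioc_eq_integral_Ioo]
    have h4 : ∀ᵐ σ ∂(volume.restrict (Ioo (0 : ℝ) ρ)), ∀ᵐ z : E N,
        Integrable (fun q => Gi a b c ρ x y ((σ, z), q)) (Mm N ρ) :=
      Measure.ae_ae_of_ae_prod h2
    apply integral_congr_ae
    filter_upwards [h4, ae_restrict_mem measurableSet_Ioo] with σ h5 hσ
    apply integral_congr_ae
    filter_upwards [h5] with z h6
    have h7 : ∫ q, Gi a b c ρ x y ((σ, z), q) ∂(Mm N ρ) =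
        ∫ σ' in Ioo 0 ρ, ∫ z' : E N, Gi a b c ρ x y ((σ, z), (σ', z')) := integral_prod _ h6
    rw [h7]
    have h9 : ∫ τ in (0 : ℝ)..(ρ - σ), ∫ z' : E N, b τ z z' * c (ρ - σ - τ) z' y =
        ∫ σ' in σ..ρ, ∫ z' : E N, b (σ' - σ) z z' * c (ρ - σ') z' y := by
      have := intervalIntegral.integral_comp_sub_right (a := σ) (b := ρ)
        (fun τ => ∫ z' : E N, b τ z z' * c (ρ - σ - τ) z' y) σ
      rw [sub_self] at this
      rw [← this]
      apply intervalIntegral.integral_congr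
      intro σ' _
      simp only [sub_sub, add_sub_cancel]
    rw [h9, intervalIntegral.integral_of_le hσ.2.le, integral_Ioc_eq_integral_Ioo]
    have h8 : ∀ σ' : ℝ, (∫ z' : E N, Gi a b c ρ x y ((σ, z), (σ', z'))) =
        (Ioi σ).indicator (fun σ' => a σ x z * ∫ z' : E N, b (σ' - σ) z z' *
          c (ρ - σ') z' y) σ' := by
      intro σ'
      by_cases h : σ < σ'
      · rw [indicator_of_mem (show σ' ∈ Ioi σ from h), ← integral_const_mul]
        unfold Gi
        simp only [h, if_true, mul_assoc]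
      · rw [indicator_of_notMem (show σ' ∉ Ioi σ from h)]
        unfold Gi
        simp only [h, if_false, integral_zero]
    simp_rw [h8]
    rw [setIntegral_indicator measurableSet_Ioi,
      show Ioo 0 ρ ∩ Ioi σ = Ioo σ ρ by
        ext τ; simp only [mem_inter_iff, mem_Ioo, mem_Ioi]
        exact ⟨fun h => ⟨h.2, h.1.2⟩, fun h => ⟨⟨hσ.1.trans h.1, h.2⟩, h.1⟩⟩,
      integral_const_mul]
  rw [hL, hR]
  exact (integral_integral_swap (f := fun p q => Gi a b c ρ x y (p, q)) hI).symm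

end Pool.Agent.H78.RF
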