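import Pool.Agent.H78.RF.Conv

/-!
# [KSYM] symmetry of the kernel of a potential moving with constant velocity
-/

open MeasureTheory Set Filter Topology Metric
open Pool.Agent.H29.TF
open Pool.Agent.H91.RD Pool.Agent.H91.RF

namespace Pool.Agent.H78.RF

variable {N : ℕ}

/-- shift of the iterated kernels along the motion -/
theorem gkn_shift {V : ℝ → E N → ℝ} {w : E N} (hV : ∀ t ≤ 0, ∀ x, V t x = V 0 (x - t • w)) {σ : ℝ}
    (hσ : 0 ≤ σ) (n : ℕ) : ∀ (s t : ℝ), s ≤ t → t ≤ 0 → ∀ x y : E N,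
    gkn V n (t - σ) (x - σ • w) (s - σ) (y - σ • w) = gkn V n t x s y := by
  induction n with
  | zero =>
    intro s t _ _ x y
    simp only [gkn]
    congr 1
    · ring
    · abel
  | succ n ih =>
    intro s t hst ht x y
    simp only [gkn]
    have h1 := intervalIntegral.integral_comp_sub_right (a := s) (b := t)
      (fun r => ∫ z : E N, hk (t - σ - r) (x - σ • w - z) *
        (V r z * gkn V n r z (s - σ) (y - σ • w))) σ
    rw [← h1]
    apply intervalIntegral.integral_congr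
    intro r hr
    rw [uIcc_of_le hst] at hr
    have h2 := integral_sub_right_eq_self (μ := (volume : Measure (E N)))
      (fun z : E N => hk (t - σ - (r - σ)) (x - σ • w - z) *
        (V (r - σ) z * gkn V n (r - σ) z (s - σ) (y - σ • w))) (σ • w)
    show (∫ z : E N, hk (t - σ - (r - σ)) (x - σ • w - z) *
        (V (r - σ) z * gkn V n (r - σ) z (s - σ) (y - σ • w))) = _
    rw [← h2]
    apply integral_congr_ae
    refine Filter.Eventually.of_forall fun z => ?_
    show hk (t - σ - (r - σ)) (x - σ • w - (z - σ • w)) *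
        (V (r - σ) (z - σ • w) * gkn V n (r - σ) (z - σ • w) (s - σ) (y - σ • w)) =
      hk (t - r) (x - z) * (V r z * gkn V n r z s y)
    rw [ih s r hr.1 (hr.2.trans ht) z y, hV (r - σ) (by linarith [hr.2]) (z - σ • w),
      hV r (by linarith [hr.2]) z]
    congr 1
    · congr 1
      · ring
      · abel
    · congr 2
      rw [sub_smul]
      abel

/-- the conjugated kernels -/
noncomputable def An (V : ℝ → E N → ℝ) (w : E N) (n : ℕ) (ρ : ℝ) (x y : E N) : ℝ :=
  Real.exp (inner ℝ w (x - y) / 2) * gkn V n 0 x (-ρ) (y - ρ • w)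

theorem An_zero (V : ℝ → E N → ℝ) (w : E N) {ρ : ℝ} (hρ : 0 < ρ) (x y : E N) :
    An V w 0 ρ x y = Real.exp (-(‖w‖ ^ 2 * ρ / 4)) * hk ρ (x - y) := by
  unfold An
  simp only [gkn]
  unfold hk
  have e1 : (0 : ℝ) - -ρ = ρ := by ring
  have e2 : x - (y - ρ • w) = (x - y) + ρ • w := by abel
  rw [e1, e2, norm_add_sq_real, inner_smul_right, real_inner_comm w (x - y), norm_smul,
    Real.norm_of_nonneg hρ.le]
  have h : Real.exp (inner ℝ w (x - y) / 2) *
      Real.exp (-(‖x - y‖ ^ 2 + 2 * (ρ * inner ℝ w (x - y)) + (ρ * ‖w‖) ^ 2) / (4 * ρ)) =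
      Real.exp (-(‖w‖ ^ 2 * ρ / 4)) * Real.exp (-‖x - y‖ ^ 2 / (4 * ρ)) := by
    rw [← Real.exp_add, ← Real.exp_add]
    congr 1
    field_simp
    ring
  linear_combination (4 * Real.pi * ρ) ^ (-(Module.finrank ℝ (E N) : ℝ) / 2) * h

theorem An_sym0 (V : ℝ → E N → ℝ) (w : E N) {ρ : ℝ} (hρ : 0 < ρ) (x y : E N) :
    An V w 0 ρ x y = An V w 0 ρ y x := by
  rw [An_zero V w hρ, An_zero V w hρ, hk_sub_comm]

/-- left recursion -/
theorem An_left {V : ℝ → E N → ℝ} {w : E N} (hV : ∀ t ≤ 0, ∀ x, V t x = V 0 (x - t • w)) (n : ℕ)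
    {ρ : ℝ} (hρ : 0 < ρ) (x y : E N) :
    An V w (n + 1) ρ x y = cv (fun σ x z => An V w 0 σ x z * V 0 z) (An V w n) ρ x y := by
  unfold cv An
  simp only [gkn]
  have h1 := intervalIntegral.integral_comp_neg (a := 0) (b := ρ)
      (fun r => ∫ z : E N, hk (0 - r) (x - z) *
        (V r z * gkn V n r z (-ρ) (y - ρ • w)))
  rw [neg_zero] at h1
  rw [← h1, ← intervalIntegral.integral_const_mul]
  apply intervalIntegral.integral_congr
  intro σ hσ
  rw [uIcc_of_le hρ.le] at hσ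
  have h2 := integral_sub_right_eq_self (μ := (volume : Measure (E N)))
      (fun z : E N => hk (0 - -σ) (x - z) *
        (V (-σ) z * gkn V n (-σ) z (-ρ) (y - ρ • w))) (σ • w)
  show Real.exp (inner ℝ w (x - y) / 2) * (∫ z : E N, hk (0 - -σ) (x - z) *
        (V (-σ) z * gkn V n (-σ) z (-ρ) (y - ρ • w))) = _
  rw [← h2, ← integral_const_mul]
  apply integral_congr_ae
  refine Filter.Eventually.of_forall fun z => ?_
  show Real.exp (inner ℝ w (x - y) / 2) * (hk (0 - -σ) (x - (z - σ • w)) *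
        (V (-σ) (z - σ • w) * gkn V n (-σ) (z - σ • w) (-ρ) (y - ρ • w))) =
    Real.exp (inner ℝ w (x - z) / 2) * hk (0 - -σ) (x - (z - σ • w)) * V 0 z *
      (Real.exp (inner ℝ w (z - y) / 2) * gkn V n 0 z (-(ρ - σ)) (y - (ρ - σ) • w))
  have h3 := gkn_shift hV hσ.1 n (-(ρ - σ)) 0 (by linarith [hσ.2]) le_rfl z (y - (ρ - σ) • w)
  have e3 : (0 : ℝ) - σ = -σ := by ring
  have e4 : -(ρ - σ) - σ = -ρ := by ring
  have e5 : y - (ρ - σ) • w - σ • w = y - ρ • w := by rw [sub_smul]; abel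
  rw [e3, e4, e5] at h3
  have h4 := hV (-σ) (by linarith [hσ.1]) (z - σ • w)
  have e6 : z - σ • w - -σ • w = z := by rw [neg_smul]; abel
  rw [e6] at h4
  rw [h3, h4]
  have h5 : Real.exp (inner ℝ w (x - y) / 2) =
      Real.exp (inner ℝ w (x - z) / 2) * Real.exp (inner ℝ w (z - y) / 2) := by
    rw [← Real.exp_add, ← add_div, ← inner_add_right, sub_add_sub_cancel]
  rw [h5]
  ring

theorem cv_congr {a a' b b' : ℝ → E N → E N → ℝ} {ρ : ℝ} (hρ : 0 < ρ) (x y : E N)
    (ha : ∀ σ, 0 < σ → σ < ρ → ∀ z, a σ x z = a' σ x z)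
    (hb : ∀ σ, 0 < σ → σ < ρ → ∀ z, b σ z y = b' σ z y) :
    cv a b ρ x y = cv a' b' ρ x y := by
  unfold cv
  rw [intervalIntegral.integral_of_le hρ.le, integral_Ioc_eq_integral_Ioo,
    intervalIntegral.integral_of_le hρ.le, integral_Ioc_eq_integral_Ioo]
  apply setIntegral_congr_fun measurableSet_Ioo
  intro σ hσ
  apply integral_congr_ae
  refine Filter.Eventually.of_forall fun z => ?_
  show a σ x z * b (ρ - σ) z y = a' σ x z * b' (ρ - σ) z y
  rw [ha σ hσ.1 hσ.2, hb (ρ - σ) (by linarith [hσ.2]) (by linarith [hσ.1])]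

theorem An_dk (hKE1 : T_KE1) {K : ℝ} {V : ℝ → E N → ℝ} (hP : Pt K V) (w : E N) (n : ℕ) {R : ℝ}
    (hR : 0 < R) : Dk ((K * R) ^ n / (n.factorial : ℝ)) R (An V w n) := by
  obtain ⟨hm, hb, -, -⟩ := hKE1 N K V hP
  have hK := hP.K0
  refine ⟨by positivity, ?_, ?_⟩
  · unfold An
    refine Measurable.mul (by fun_prop) ?_
    exact (hm n).comp (f := fun p : ℝ × (E N × E N) =>
      (((0 : ℝ), p.2.1), (-p.1, p.2.2 - p.1 • w))) (by fun_prop)
  · intro σ h0 h1 x y
    have h2 := hb n (-σ) 0 (by linarith) x (y - σ • w)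
    have h3 := An_zero V w h0 x y
    unfold An at h3 ⊢
    simp only [gkn] at h3
    rw [abs_mul, abs_of_pos (Real.exp_pos _)]
    have e1 : (0 : ℝ) - -σ = σ := by ring
    rw [e1] at h2 h3
    have n1 := hk_nonneg h0.le (x - y)
    have h4 : Real.exp (-(‖w‖ ^ 2 * σ / 4)) ≤ 1 := by
      rw [Real.exp_le_one_iff]
      have : 0 ≤ ‖w‖ ^ 2 * σ / 4 := by positivity
      linarith
    calc _ ≤ Real.exp (inner ℝ w (x - y) / 2) *
          ((K * σ) ^ n / (n.factorial : ℝ) * hk σ (x - (y - σ • w))) := by gcongr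
      _ = (K * σ) ^ n / (n.factorial : ℝ) *
          (Real.exp (inner ℝ w (x - y) / 2) * hk σ (x - (y - σ • w))) := by ring
      _ = (K * σ) ^ n / (n.factorial : ℝ) *
          (Real.exp (-(‖w‖ ^ 2 * σ / 4)) * hk σ (x - y)) := by rw [h3]
      _ ≤ (K * R) ^ n / (n.factorial : ℝ) * (1 * hk σ (x - y)) := by gcongr
      _ = _ := by rw [one_mul]

theorem Dk.mulV {K : ℝ} {V : ℝ → E N → ℝ} (hP : Pt K V) {a : ℝ → E N → E N → ℝ} {C R : ℝ}
    (ha : Dk C R a) : Dk (C * K) R (fun σ x z => a σ x z * V 0 z) := by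
  have hK := hP.K0
  refine ⟨mul_nonneg ha.C0 hK.le, ?_, ?_⟩
  · refine Measurable.mul ha.meas ?_
    exact hP.meas.comp (f := fun p : ℝ × (E N × E N) => ((0 : ℝ), p.2.2)) (by fun_prop)
  · intro σ h0 h1 x y
    rw [abs_mul]
    have h2 := ha.le σ h0 h1 x y
    have h3 := hP.bdd 0 y
    have n1 := hk_nonneg h0.le (x - y)
    calc _ ≤ (C * hk σ (x - y)) * K :=
          mul_le_mul h2 h3 (abs_nonneg _) (mul_nonneg ha.C0 n1)
      _ = _ := by ring

/-- right recursion -/
theorem An_right (hKE1 : T_KE1) {K : ℝ} {V : ℝ → E N → ℝ} (hP : Pt K V) {w : E N}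
    (hV : ∀ t ≤ 0, ∀ x, V t x = V 0 (x - t • w)) (n : ℕ) : ∀ {ρ : ℝ}, 0 < ρ → ∀ (x y : E N),
    An V w (n + 1) ρ x y = cv (fun σ x z => An V w n σ x z * V 0 z) (An V w 0) ρ x y := by
  induction n with
  | zero => exact fun hρ x y => An_left hV 0 hρ x y
  | succ n ih =>
    intro ρ hρ x y
    rw [An_left hV (n + 1) hρ x y]
    have h1 : cv (fun σ x z => An V w 0 σ x z * V 0 z) (An V w (n + 1)) ρ x y =
        cv (fun σ x z => An V w 0 σ x z * V 0 z)
          (cv (fun σ x z => An V w n σ x z * V 0 z) (An V w 0)) ρ x y :=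
      cv_congr hρ x y (fun _ _ _ _ => rfl) (fun σ h0 _ z => ih h0 z y)
    rw [h1, ← cv_assoc hρ ((An_dk hKE1 hP w 0 hρ).mulV hP) ((An_dk hKE1 hP w n hρ).mulV hP)
      (An_dk hKE1 hP w 0 hρ) x y]
    apply cv_congr hρ x y _ (fun _ _ _ _ => rfl)
    intro σ h0 h1 z
    show cv (fun σ x z => An V w 0 σ x z * V 0 z) (fun σ x z => An V w n σ x z * V 0 z) σ x z =
      An V w (n + 1) σ x z * V 0 z
    rw [An_left hV n h0 x z]
    unfold cv
    rw [← intervalIntegral.integral_mul_const]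
    apply intervalIntegral.integral_congr
    intro τ _
    show (∫ z' : E N, An V w 0 τ x z' * V 0 z' * (An V w n (σ - τ) z' z * V 0 z)) =
      (∫ z' : E N, An V w 0 τ x z' * V 0 z' * An V w n (σ - τ) z' z) * V 0 z
    rw [← integral_mul_const]
    apply integral_congr_ae
    refine Filter.Eventually.of_forall fun z' => ?_
    show An V w 0 τ x z' * V 0 z' * (An V w n (σ - τ) z' z * V 0 z) =
      An V w 0 τ x z' * V 0 z' * An V w n (σ - τ) z' z * V 0 z
    ring

theorem An_sym (hKE1 : T_KE1) {K : ℝ} {V : ℝ → E N → ℝ} (hP : Pt K V) {w : E N}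
    (hV : ∀ t ≤ 0, ∀ x, V t x = V 0 (x - t • w)) (n : ℕ) : ∀ {ρ : ℝ}, 0 < ρ → ∀ (x y : E N),
    An V w n ρ x y = An V w n ρ y x := by
  induction n with
  | zero => exact fun hρ x y => An_sym0 V w hρ x y
  | succ n ih =>
    intro ρ hρ x y
    rw [An_left hV n hρ y x, An_right hKE1 hP hV n hρ x y]
    unfold cv
    have h1 := intervalIntegral.integral_comp_sub_left (a := 0) (b := ρ)
      (fun σ => ∫ z : E N, An V w 0 σ y z * V 0 z * An V w n (ρ - σ) z x) ρ
    rw [sub_zero, sub_self] at h1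
    rw [← h1, intervalIntegral.integral_of_le hρ.le, integral_Ioc_eq_integral_Ioo,
      intervalIntegral.integral_of_le hρ.le, integral_Ioc_eq_integral_Ioo]
    apply setIntegral_congr_fun measurableSet_Ioo
    intro σ hσ
    apply integral_congr_ae
    refine Filter.Eventually.of_forall fun z => ?_
    show An V w n σ x z * V 0 z * An V w 0 (ρ - σ) z y =
      An V w 0 (ρ - σ) y z * V 0 z * An V w n (ρ - (ρ - σ)) z x
    rw [show ρ - (ρ - σ) = σ by ring, ih hσ.1 x z, An_sym0 V w (by linarith [hσ.2]) z y]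
    ring

theorem ksym (hKE1 : T_KE1) : T_KSYM := by
  intro N K V w hP hV s hs x y
  have h : ∀ x y : E N, Real.exp (inner ℝ w (x - y) / 2) * gk V 0 x (-s) (y - s • w) =
      ∑' n, An V w n s x y := by
    intro x y
    unfold gk An
    rw [tsum_mul_left]
  rw [h x y, h y x]
  apply tsum_congr
  intro n
  exact An_sym hKE1 hP hV n hs x y

end Pool.Agent.H78.RF
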