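import Pool.Agent.H78.RF.Ode

/-!
# The tail used to continue a profile below a level
-/

open Set Filter Topology Metric

namespace Pool.Agent.H78.RF

noncomputable def al (p k D x : ℝ) : ℝ :=
  p * x * c3 (1 - k * x) + D * x ^ 2 * c3 (1 - 1 * x) +
    2 * (1 - c3 (1 - 1 * x) * (10 - 15 * (1 - 1 * x) + 6 * (1 - 1 * x) ^ 2))

noncomputable def al1 (p k D x : ℝ) : ℝ :=
  p * c3 (1 - k * x) + p * x * (-(k * c2 (1 - k * x))) +
    (D * (2 * x) * c3 (1 - 1 * x) + D * x ^ 2 * (-(1 * c2 (1 - 1 * x)))) +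
    -2 * (-(1 * c2 (1 - 1 * x)) * (10 - 15 * (1 - 1 * x) + 6 * (1 - 1 * x) ^ 2) +
      c3 (1 - 1 * x) * (15 - 12 * (1 - 1 * x)))

noncomputable def al2 (p k D x : ℝ) : ℝ :=
  2 * p * (-(k * c2 (1 - k * x))) + p * x * (k ^ 2 * c1 (1 - k * x)) +
    (2 * D * c3 (1 - 1 * x) + 4 * D * x * (-(1 * c2 (1 - 1 * x))) +
      D * x ^ 2 * c1 (1 - 1 * x)) +
    -2 * (c1 (1 - 1 * x) * (10 - 15 * (1 - 1 * x) + 6 * (1 - 1 * x) ^ 2) +
      2 * (-(1 * c2 (1 - 1 * x))) * (15 - 12 * (1 - 1 * x)) + c3 (1 - 1 * x) * 12)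

theorem hasDerivAt_c3k (k x : ℝ) : HasDerivAt (fun x => c3 (1 - k * x)) (-(k * c2 (1 - k * x))) x := by
  have h1 : HasDerivAt (fun x => 1 - k * x) (-k) x := by
    have := ((hasDerivAt_id x).const_mul k).const_sub 1
    simpa using this
  have h2 := (hasDerivAt_c3 (1 - k * x)).comp x h1
  exact h2.congr_deriv (by ring)

theorem hasDerivAt_c2k (k x : ℝ) :
    HasDerivAt (fun x => -(k * c2 (1 - k * x))) (k ^ 2 * c1 (1 - k * x)) x := by
  have h1 : HasDerivAt (fun x => 1 - k * x) (-k) x := by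
    have := ((hasDerivAt_id x).const_mul k).const_sub 1
    simpa using this
  have h2 := (((hasDerivAt_c2 (1 - k * x)).comp x h1).const_mul k).neg
  exact h2.congr_deriv (by ring)

theorem hasDerivAt_quad (x : ℝ) :
    HasDerivAt (fun x : ℝ => 10 - 15 * (1 - 1 * x) + 6 * (1 - 1 * x) ^ 2)
      (15 - 12 * (1 - 1 * x)) x := by
  have h1 : HasDerivAt (fun x : ℝ => 1 - 1 * x) (-1) x := by
    have := ((hasDerivAt_id x).const_mul 1).const_sub 1
    simpa using this
  exact (((h1.const_mul 15).const_sub 10).add ((h1.pow 2).const_mul 6)).congr_deriv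
    (by norm_num; ring)

theorem hasDerivAt_lin (x : ℝ) :
    HasDerivAt (fun x : ℝ => 15 - 12 * (1 - 1 * x)) 12 x := by
  have h1 : HasDerivAt (fun x : ℝ => 1 - 1 * x) (-1) x := by
    have := ((hasDerivAt_id x).const_mul 1).const_sub 1
    simpa using this
  exact ((h1.const_mul 12).const_sub 15).congr_deriv (by norm_num)

theorem hasDerivAt_al (p k D x : ℝ) : HasDerivAt (al p k D) (al1 p k D x) x := by
  unfold al1
  have a1 : HasDerivAt (fun x : ℝ => p * x) p x := by
    simpa using (hasDerivAt_id x).const_mul p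
  have a2 : HasDerivAt (fun x : ℝ => D * x ^ 2) (D * (2 * x)) x := by
    simpa using (hasDerivAt_pow 2 x).const_mul D
  have b1 := a1.mul (hasDerivAt_c3k k x)
  have b2 := a2.mul (hasDerivAt_c3k 1 x)
  have b3 := ((((hasDerivAt_c3k 1 x).mul (hasDerivAt_quad x)).const_sub 1).const_mul 2)
  exact ((b1.add b2).add b3).congr_deriv (by ring)

theorem hasDerivAt_al1 (p k D x : ℝ) : HasDerivAt (al1 p k D) (al2 p k D x) x := by
  unfold al2
  have a1 : HasDerivAt (fun x : ℝ => p * x) p x := by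
    simpa using (hasDerivAt_id x).const_mul p
  have a2 : HasDerivAt (fun x : ℝ => D * x ^ 2) (D * (2 * x)) x := by
    simpa using (hasDerivAt_pow 2 x).const_mul D
  have a3 : HasDerivAt (fun x : ℝ => D * (2 * x)) (D * 2) x := by
    simpa using ((hasDerivAt_id x).const_mul 2).const_mul D
  have b1 := ((hasDerivAt_c3k k x).const_mul p).add (a1.mul (hasDerivAt_c2k k x))
  have b2 := (a3.mul (hasDerivAt_c3k 1 x)).add (a2.mul (hasDerivAt_c2k 1 x))
  have b3 := (((hasDerivAt_c2k 1 x).mul (hasDerivAt_quad x)).add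
    ((hasDerivAt_c3k 1 x).mul (hasDerivAt_lin x))).const_mul (-2)
  exact ((b1.add b2).add b3).congr_deriv (by ring)

theorem continuous_al2 (p k D : ℝ) : Continuous (al2 p k D) := by
  unfold al2
  have h1 : Continuous (fun x => c3 (1 - k * x)) :=
    continuous_iff_continuousAt.2 fun x => (hasDerivAt_c3k k x).continuousAt
  have h2 : Continuous (fun x => c3 (1 - 1 * x)) :=
    continuous_iff_continuousAt.2 fun x => (hasDerivAt_c3k 1 x).continuousAt
  have h3 : Continuous (fun x => -(k * c2 (1 - k * x))) :=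
    continuous_iff_continuousAt.2 fun x => (hasDerivAt_c2k k x).continuousAt
  have h4 : Continuous (fun x => -(1 * c2 (1 - 1 * x))) :=
    continuous_iff_continuousAt.2 fun x => (hasDerivAt_c2k 1 x).continuousAt
  have h5 : Continuous (fun x => c1 (1 - k * x)) := continuous_c1.comp (by fun_prop)
  have h6 : Continuous (fun x : ℝ => c1 (1 - 1 * x)) := continuous_c1.comp (by fun_prop)
  fun_prop

theorem al_zero (p k D : ℝ) : al p k D 0 = 0 := by
  unfold al c3; norm_num

theorem al1_zero (p k D : ℝ) : al1 p k D 0 = p := by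
  unfold al1 c3 c2; norm_num

theorem al2_zero (p k D : ℝ) : al2 p k D 0 = 2 * D - 6 * k * p := by
  unfold al2 c3 c2 c1; norm_num; ring

theorem step_nonneg (u : ℝ) (hu : u ≤ 1) : 0 ≤ 1 - c3 u * (10 - 15 * u + 6 * u ^ 2) := by
  unfold c3
  split_ifs with h
  · simp
  · push Not at h
    have e : 1 - u ^ 3 * (10 - 15 * u + 6 * u ^ 2) = (1 - u) ^ 3 * (1 + 3 * u + 6 * u ^ 2) := by ring
    rw [e]
    have : 0 ≤ 1 - u := by linarith
    positivity

theorem al_nonneg {p k D x : ℝ} (hp : 0 ≤ p) (hD : 0 ≤ D) (hx : 0 ≤ x) : 0 ≤ al p k D x := by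
  unfold al
  have h1 := c3_nonneg (1 - k * x)
  have h2 := c3_nonneg (1 - 1 * x)
  have h3 := step_nonneg (1 - 1 * x) (by linarith)
  positivity

theorem c3_of_nonpos {x : ℝ} (hx : x ≤ 0) : c3 x = 0 := if_pos hx
theorem c2_of_nonpos {x : ℝ} (hx : x ≤ 0) : c2 x = 0 := if_pos hx
theorem c1_of_nonpos {x : ℝ} (hx : x ≤ 0) : c1 x = 0 := if_pos hx

theorem al_far {p k D x : ℝ} (hk : 1 ≤ k) (hx : 1 ≤ x) :
    al p k D x = 2 ∧ al1 p k D x = 0 ∧ al2 p k D x = 0 := by
  have h1 : 1 - k * x ≤ 0 := by nlinarith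
  have h2 : 1 - 1 * x ≤ 0 := by linarith
  unfold al al1 al2
  rw [c3_of_nonpos h1, c3_of_nonpos h2, c2_of_nonpos h1, c2_of_nonpos h2, c1_of_nonpos h1,
    c1_of_nonpos h2]
  refine ⟨by ring, by ring, by ring⟩

/-- continuation of a profile -/
theorem extend {q q1 q2 : ℝ → ℝ} {z1 l m : ℝ} (hz1 : 0 < z1) (hm : m ≤ 1)
    (h1 : ∀ x ≤ z1, HasDerivAt q (q1 x) x) (h2 : ∀ x ≤ z1, HasDerivAt q1 (q2 x) x)
    (h3 : ContinuousOn q2 (Iic z1)) (hl : ∀ x ≤ 0, q x = l) (hl1 : ∀ x ≤ 0, q1 x = 0)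
    (hl2 : ∀ x ≤ 0, q2 x = 0) (hq : q z1 = m) (hq1 : q1 z1 < 0) :
    ∃ r : ℝ → ℝ, ContDiff ℝ 2 r ∧ (∀ z ≤ z1, r z = q z ∧ deriv r z = q1 z ∧
      deriv (deriv r) z = q2 z) ∧ (∀ z ≥ z1, r z ≤ m) ∧ (∀ z ≥ z1 + 1, r z ≤ 0) ∧
      ∃ C, ∀ z, |r z| + |deriv r z| + |deriv (deriv r) z| ≤ C := by
  obtain ⟨p, hp⟩ : ∃ p, p = -q1 z1 := ⟨_, rfl⟩
  have hp0 : 0 < p := by rw [hp]; linarith
  obtain ⟨a, ha⟩ : ∃ a, a = q2 z1 := ⟨_, rfl⟩
  obtain ⟨k, hk⟩ : ∃ k, k = 1 + |a| / (6 * p) := ⟨_, rfl⟩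
  have hk1 : 1 ≤ k := by
    rw [hk]
    have : 0 ≤ |a| / (6 * p) := by positivity
    linarith
  obtain ⟨D, hD⟩ : ∃ D, D = 3 * k * p - a / 2 := ⟨_, rfl⟩
  have hD0 : 0 ≤ D := by
    have e : 3 * k * p = 3 * p + |a| / 2 := by rw [hk]; field_simp; ring
    rw [hD, e]
    linarith [le_abs_self a]
  have hG : ∀ x, HasDerivAt (fun z => m - al p k D (z - z1)) (-al1 p k D (x - z1)) x := by
    intro x
    have := ((hasDerivAt_al p k D (x - z1)).comp_sub_const x z1).const_sub m
    exact this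
  have hG1 : ∀ x, HasDerivAt (fun z => -al1 p k D (z - z1)) (-al2 p k D (x - z1)) x := by
    intro x
    exact ((hasDerivAt_al1 p k D (x - z1)).comp_sub_const x z1).neg
  have r1 := glue (F := q) (G := fun z => m - al p k D (z - z1)) (F' := q1)
    (G' := fun z => -al1 p k D (z - z1)) (c := z1) h1 (fun x _ => hG x)
    (by simp only [sub_self, al_zero, sub_zero]; exact hq)
    (by simp only [sub_self, al1_zero]; rw [hp]; ring)
  have r2 := glue (F := q1) (G := fun z => -al1 p k D (z - z1)) (F' := q2)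
    (G' := fun z => -al2 p k D (z - z1)) (c := z1) h2 (fun x _ => hG1 x)
    (by simp only [sub_self, al1_zero]; rw [hp]; ring)
    (by simp only [sub_self, al2_zero]; rw [hD, ← ha]; ring)
  have r3 : Continuous (fun z => if z ≤ z1 then q2 z else -al2 p k D (z - z1)) := by
    apply continuous_if_le continuous_id continuous_const
    · exact h3
    · exact ((continuous_al2 p k D).comp (by fun_prop)).neg.continuousOn
    · intro x hx
      simp only [id] at hx
      rw [hx]
      simp only [sub_self, al2_zero]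
      rw [hD, ← ha]; ring
  obtain ⟨c0, c1', c2'⟩ := contDiff_two r1 r2 r3
  refine ⟨_, c0, ?_, ?_, ?_, ?_⟩
  · intro z hz
    rw [c1']
    rw [c1'] at c2'
    rw [c2']
    exact ⟨if_pos hz, if_pos hz, if_pos hz⟩
  · intro z hz
    show (if z ≤ z1 then q z else m - al p k D (z - z1)) ≤ m
    split_ifs with h
    · rw [le_antisymm h hz, hq]
    · have := al_nonneg (p := p) (k := k) (D := D) hp0.le hD0 (x := z - z1) (by linarith)
      linarith
  · intro z hz
    show (if z ≤ z1 then q z else m - al p k D (z - z1)) ≤ 0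
    rw [if_neg (by linarith)]
    rw [(al_far (p := p) (D := D) hk1 (show 1 ≤ z - z1 by linarith)).1]
    linarith
  · rw [c2', c1']
    obtain ⟨h, hh⟩ : ∃ h : ℝ → ℝ, h = fun z =>
      |if z ≤ z1 then q z else m - al p k D (z - z1)| +
      |if z ≤ z1 then q1 z else -al1 p k D (z - z1)| +
      |if z ≤ z1 then q2 z else -al2 p k D (z - z1)| := ⟨_, rfl⟩
    have hcont : Continuous h := by
      rw [hh]
      have e1 : Continuous (fun z => if z ≤ z1 then q z else m - al p k D (z - z1)) :=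
        continuous_iff_continuousAt.2 fun x => (r1 x).continuousAt
      have e2 : Continuous (fun z => if z ≤ z1 then q1 z else -al1 p k D (z - z1)) :=
        continuous_iff_continuousAt.2 fun x => (r2 x).continuousAt
      exact (e1.abs.add e2.abs).add r3.abs
    obtain ⟨C, hC⟩ := isCompact_Icc (a := (0 : ℝ)) (b := z1 + 1) |>.exists_bound_of_continuousOn
      hcont.continuousOn
    refine ⟨max C (max |l| |m - 2|), fun z => ?_⟩
    show (|if z ≤ z1 then q z else m - al p k D (z - z1)| +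
      |if z ≤ z1 then q1 z else -al1 p k D (z - z1)| +
      |if z ≤ z1 then q2 z else -al2 p k D (z - z1)|) ≤ _
    rcases lt_or_ge z 0 with hz | hz
    · have hz' : z ≤ z1 := by linarith
      rw [if_pos hz', if_pos hz', if_pos hz', hl z hz.le, hl1 z hz.le, hl2 z hz.le]
      simp only [abs_zero, add_zero]
      exact (le_max_left _ _).trans (le_max_right _ _)
    · rcases lt_or_ge (z1 + 1) z with hz2 | hz2
      · have hz' : ¬ z ≤ z1 := by linarith
        obtain ⟨f1, f2, f3⟩ := al_far (p := p) (D := D) hk1 (show 1 ≤ z - z1 by linarith)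
        rw [if_neg hz', if_neg hz', if_neg hz', f1, f2, f3]
        simp only [neg_zero, abs_zero, add_zero]
        exact (le_max_right _ _).trans (le_max_right _ _)
      · have := hC z ⟨hz, hz2⟩
        rw [hh, Real.norm_eq_abs] at this
        exact ((le_abs_self _).trans this).trans (le_max_left _ _)

end Pool.Agent.H78.RF
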