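import Pool.Agent.H91.RF.TargetsA
import Pool.Agent.H78.RF.Tail

/-!
# [SUBP] sub-profile with a flat top
-/

open MeasureTheory Set Filter Topology Metric
open Pool.Agent.H91.RD Pool.Agent.H91.RF

namespace Pool.Agent.H78.RF

theorem mono_of {g g' : ℝ → ℝ} {a b : ℝ} (hab : a ≤ b) (hd : ∀ x ∈ Icc a b, HasDerivAt g (g' x) x)
    (h : ∀ x ∈ Ioo a b, 0 ≤ g' x) : g a ≤ g b := by
  have := barrier (g := fun x => -g x) (g' := fun x => -g' x) (c := -g a) hab
    (fun x hx => (hd x hx).neg.continuousAt.continuousWithinAt)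
    (fun x hx => (hd x (Ioo_subset_Icc_self hx)).neg)
    (fun x hx _ => by have := h x hx; linarith) le_rfl
  linarith

theorem strictMono_of {g g' : ℝ → ℝ} {a b : ℝ} (hab : a < b)
    (hd : ∀ x ∈ Icc a b, HasDerivAt g (g' x) x)
    (h : ∀ x ∈ Ioo a b, 0 < g' x) : g a < g b := by
  obtain ⟨ξ, hξ, hξ2⟩ := exists_hasDerivAt_eq_slope g g' hab
    (fun x hx => (hd x hx).continuousAt.continuousWithinAt)
    (fun x hx => hd x (Ioo_subset_Icc_self hx))
  have h1 := h ξ hξ
  have h2 : 0 < b - a := by linarith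
  have h3 : g b - g a = g' ξ * (b - a) := by
    rw [hξ2]; field_simp
  have h4 := mul_pos h1 h2
  linarith

/-- the level `la` -/
theorem exists_la {η : ℝ → ℝ} {m top μ : ℝ} (hη : ContinuousOn η (Icc m top)) (hm : m < top)
    (hμ : μ < top) (h0 : η top = 0) (hpos : ∀ l, m ≤ l → l < top → 0 < η l) :
    ∃ la, m < la ∧ μ < la ∧ la < top ∧ ∀ l ∈ Icc m la, η la ≤ η l := by
  obtain ⟨μ1, hμ1⟩ : ∃ μ1, μ1 = (max m μ + top) / 2 := ⟨_, rfl⟩
  have h1 : max m μ < top := max_lt hm hμ
  have h2 : μ1 < top := by rw [hμ1]; linarith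
  have h3 : m < μ1 := by rw [hμ1]; linarith [le_max_left m μ]
  have h4 : μ < μ1 := by rw [hμ1]; linarith [le_max_right m μ]
  obtain ⟨x0, hx0, hmin⟩ := isCompact_Icc (a := m) (b := μ1) |>.exists_isMinOn
    ⟨m, left_mem_Icc.2 h3.le⟩ (hη.mono (Icc_subset_Icc_right h2.le))
  have hp0 := hpos x0 hx0.1 (hx0.2.trans_lt h2)
  have hct : ContinuousWithinAt η (Icc m top) top := hη top (right_mem_Icc.2 hm.le)
  have h5 : ∀ᶠ x in 𝓝[Icc m top] top, η x < η x0 := by
    exact Tendsto.eventually (f := η) (p := fun v => v < η x0) hct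
      (by rw [h0]; exact gt_mem_nhds hp0)
  have h6 : ∀ᶠ x in 𝓝[Icc m top] top, μ1 < x :=
    (lt_mem_nhds h2).filter_mono nhdsWithin_le_nhds
  have h7 : ∃ᶠ x in 𝓝[Ico m top] top, True := by
    have hcl : top ∈ closure (Ico m top) := by
      rw [closure_Ico hm.ne]; exact right_mem_Icc.2 hm.le
    have hnb : (𝓝[Ico m top] top).NeBot := mem_closure_iff_nhdsWithin_neBot.1 hcl
    exact (Filter.Eventually.of_forall fun _ => trivial).frequently
  have hle : 𝓝[Ico m top] top ≤ 𝓝[Icc m top] top := nhdsWithin_mono _ Ico_subset_Icc_self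
  obtain ⟨l2, -, ⟨hl1, hl2⟩, hl3⟩ := (h7.and_eventually
    (((h5.filter_mono hle).and (h6.filter_mono hle)).and self_mem_nhdsWithin)).exists
  obtain ⟨la, hla, hmin2⟩ := isCompact_Icc (a := m) (b := l2) |>.exists_isMinOn
    ⟨m, left_mem_Icc.2 hl3.1⟩ (hη.mono (Icc_subset_Icc_right hl3.2.le))
  have h8 : η la < η x0 := (hmin2 (right_mem_Icc.2 hl3.1)).trans_lt hl1
  have h9 : μ1 < la := by
    by_contra hcon
    push Not at hcon
    have := hmin (show la ∈ Icc m μ1 from ⟨hla.1, hcon⟩)
    exact absurd h8 (not_lt.2 this)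
  refine ⟨la, h3.trans h9, h4.trans h9, hla.2.trans_lt hl3.2, fun l hl => ?_⟩
  exact hmin2 ⟨hl.1, hl.2.trans hla.2⟩

/-- the solution of the ramped equation -/
theorem exists_sol {f : ℝ → ℝ} {K cs l w : ℝ} (hK : 0 < K) (hcs : 0 < cs) (hw : 0 < w)
    (hlip : ∀ a b, |f a - f b| ≤ K * |a - b|) (hb : ∀ a, |f a| ≤ K) :
    ∃ q p : ℝ → ℝ, q 0 = l ∧ p 0 = 0 ∧ (∀ t ≥ 0, |p t| ≤ K / cs) ∧
      (∀ t ≥ 0, HasDerivAt q (-p t) t) ∧
      ∀ t ≥ 0, HasDerivAt p (-cs * p t + max 0 (min 1 (t / w)) * f (min (q t) l)) t := by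
  obtain ⟨B, hB⟩ : ∃ B, B = K / cs := ⟨_, rfl⟩
  have hB0 : 0 < B := by rw [hB]; positivity
  obtain ⟨cl, hcl⟩ : ∃ cl : ℝ → ℝ, cl = fun p => max (-B) (min B p) := ⟨_, rfl⟩
  obtain ⟨s, hs⟩ : ∃ s : ℝ → ℝ, s = fun t => max 0 (min 1 (t / w)) := ⟨_, rfl⟩
  obtain ⟨ft, hft⟩ : ∃ ft : ℝ → ℝ, ft = fun q => f (min q l) := ⟨_, rfl⟩
  have hcl1 : ∀ x y, |cl x - cl y| ≤ |x - y| := by
    intro x y
    rw [hcl]
    have h1 := abs_max_sub_max_le_abs (min B x) (min B y) (-B)
    have h2 := abs_min_sub_min_le_max B x B y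
    simp only [sub_self, abs_zero] at h2
    show |max (-B) (min B x) - max (-B) (min B y)| ≤ |x - y|
    rw [max_comm (-B), max_comm (-B)]
    refine h1.trans (h2.trans ?_)
    rw [max_eq_right (abs_nonneg _)]
  have hcl2 : ∀ x, |cl x| ≤ B := by
    intro x
    rw [hcl, abs_le]
    exact ⟨le_max_left _ _, max_le (by linarith) (min_le_left _ _)⟩
  have hs1 : ∀ x y, |s x - s y| ≤ 1 / w * |x - y| := by
    intro x y
    rw [hs]
    have h1 := abs_max_sub_max_le_abs (min 1 (x / w)) (min 1 (y / w)) 0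
    have h2 := abs_min_sub_min_le_max 1 (x / w) 1 (y / w)
    simp only [sub_self, abs_zero] at h2
    show |max 0 (min 1 (x / w)) - max 0 (min 1 (y / w))| ≤ 1 / w * |x - y|
    rw [max_comm 0, max_comm 0]
    refine h1.trans (h2.trans ?_)
    rw [max_eq_right (abs_nonneg _), ← sub_div, abs_div, abs_of_pos hw]
    apply le_of_eq
    ring
  have hs2 : ∀ x, |s x| ≤ 1 := by
    intro x
    rw [hs, abs_le]
    exact ⟨by linarith [le_max_left 0 (min 1 (x / w))], max_le (by norm_num) (min_le_left _ _)⟩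
  have hf1 : ∀ x y, |ft x - ft y| ≤ K * |x - y| := by
    intro x y
    rw [hft]
    refine (hlip _ _).trans ?_
    have h2 := abs_min_sub_min_le_max x l y l
    simp only [sub_self, abs_zero] at h2
    rw [max_eq_left (abs_nonneg _)] at h2
    gcongr
  have hf2 : ∀ x, |ft x| ≤ K := by
    intro x; rw [hft]; exact hb _
  obtain ⟨v, hv⟩ : ∃ v : ℝ × ℝ × ℝ → ℝ × ℝ × ℝ,
    v = fun X => (1, -cl X.2.2, -cs * cl X.2.2 + s X.1 * ft X.2.1) := ⟨_, rfl⟩
  obtain ⟨γ, hγ0, hγ⟩ := exists_global v (Real.toNNReal (1 + cs + K / w + K))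
    (LipschitzWith.of_dist_le_mul (fun X Y => by
      rw [Real.coe_toNNReal _ (by positivity)]
      have d1 : |X.1 - Y.1| ≤ dist X Y := by
        rw [← Real.dist_eq, Prod.dist_eq]; exact le_max_left _ _
      have d2 : |X.2.1 - Y.2.1| ≤ dist X Y := by
        rw [← Real.dist_eq, Prod.dist_eq, Prod.dist_eq]
        exact (le_max_left _ _).trans (le_max_right _ _)
      have d3 : |X.2.2 - Y.2.2| ≤ dist X Y := by
        rw [← Real.dist_eq, Prod.dist_eq, Prod.dist_eq]
        exact (le_max_right _ _).trans (le_max_right _ _)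
      have dnn : 0 ≤ dist X Y := dist_nonneg
      rw [hv, Prod.dist_eq, Prod.dist_eq]
      simp only [Real.dist_eq]
      have e1 : |(1 : ℝ) - 1| ≤ (1 + cs + K / w + K) * dist X Y := by
        rw [sub_self, abs_zero]; positivity
      have e2 : |-cl X.2.2 - -cl Y.2.2| ≤ (1 + cs + K / w + K) * dist X Y := by
        rw [show -cl X.2.2 - -cl Y.2.2 = -(cl X.2.2 - cl Y.2.2) by ring, abs_neg]
        refine ((hcl1 _ _).trans d3).trans ?_
        have : 0 ≤ (cs + K / w + K) * dist X Y := by positivity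
        linarith
      have e3 : |-cs * cl X.2.2 + s X.1 * ft X.2.1 - (-cs * cl Y.2.2 + s Y.1 * ft Y.2.1)| ≤
          (1 + cs + K / w + K) * dist X Y := by
        have e4 : -cs * cl X.2.2 + s X.1 * ft X.2.1 - (-cs * cl Y.2.2 + s Y.1 * ft Y.2.1) =
          -(cs * (cl X.2.2 - cl Y.2.2)) + (s X.1 - s Y.1) * ft X.2.1 +
            s Y.1 * (ft X.2.1 - ft Y.2.1) := by ring
        rw [e4]
        have f1 : |-(cs * (cl X.2.2 - cl Y.2.2))| ≤ cs * dist X Y := by
          rw [abs_neg, abs_mul, abs_of_pos hcs]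
          have := (hcl1 X.2.2 Y.2.2).trans d3
          gcongr
        have f2 : |(s X.1 - s Y.1) * ft X.2.1| ≤ 1 / w * dist X Y * K := by
          rw [abs_mul]
          have g1 := hs1 X.1 Y.1
          have g2 := hf2 X.2.1
          calc _ ≤ (1 / w * |X.1 - Y.1|) * K := mul_le_mul g1 g2 (abs_nonneg _) (by positivity)
            _ ≤ _ := by gcongr
        have f3 : |s Y.1 * (ft X.2.1 - ft Y.2.1)| ≤ 1 * (K * dist X Y) := by
          rw [abs_mul]
          have g1 := hs2 Y.1
          have g2 := hf1 X.2.1 Y.2.1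
          calc _ ≤ 1 * (K * |X.2.1 - Y.2.1|) := mul_le_mul g1 g2 (abs_nonneg _) (by positivity)
            _ ≤ _ := by gcongr
        have f4 := abs_add_three (-(cs * (cl X.2.2 - cl Y.2.2))) ((s X.1 - s Y.1) * ft X.2.1)
          (s Y.1 * (ft X.2.1 - ft Y.2.1))
        have f5 : (1 + cs + K / w + K) * dist X Y = dist X Y + cs * dist X Y +
          1 / w * dist X Y * K + 1 * (K * dist X Y) := by ring
        rw [f5]
        linarith
      exact max_le e1 (max_le e2 e3)))
    (max 1 (max B (cs * B + K))) (fun X => by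
      rw [hv, Prod.norm_def, Prod.norm_def]
      simp only [Real.norm_eq_abs]
      refine max_le_max (by norm_num) (max_le_max ?_ ?_)
      · rw [abs_neg]; exact hcl2 _
      · refine (abs_add_le _ _).trans ?_
        rw [abs_mul, abs_neg, abs_of_pos hcs, abs_mul]
        have g1 := hcl2 X.2.2
        have g2 : |s X.1| * |ft X.2.1| ≤ 1 * K :=
          mul_le_mul (hs2 _) (hf2 _) (abs_nonneg _) (by norm_num)
        have g3 : cs * |cl X.2.2| ≤ cs * B := by gcongr
        linarith) ((0 : ℝ), l, (0 : ℝ))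
  have hd1 : ∀ t, HasDerivAt (fun t => (γ t).1) 1 t := by
    intro t
    have := (ContinuousLinearMap.fst ℝ ℝ (ℝ × ℝ)).hasFDerivAt.comp_hasDerivAt t (hγ t)
    rw [hv] at this
    exact this
  have hd2 : ∀ t, HasDerivAt (fun t => (γ t).2.1) (-cl (γ t).2.2) t := by
    intro t
    have := ((ContinuousLinearMap.fst ℝ ℝ ℝ).comp
      (ContinuousLinearMap.snd ℝ ℝ (ℝ × ℝ))).hasFDerivAt.comp_hasDerivAt t (hγ t)
    rw [hv] at this
    exact this
  have hd3 : ∀ t, HasDerivAt (fun t => (γ t).2.2)
      (-cs * cl (γ t).2.2 + s (γ t).1 * ft (γ t).2.1) t := by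
    intro t
    have := ((ContinuousLinearMap.snd ℝ ℝ ℝ).comp
      (ContinuousLinearMap.snd ℝ ℝ (ℝ × ℝ))).hasFDerivAt.comp_hasDerivAt t (hγ t)
    rw [hv] at this
    exact this
  have ht : ∀ t, (γ t).1 = t := by
    intro t
    have h1 : ∀ x, HasDerivAt (fun t => (γ t).1 - t) 0 x := by
      intro x
      have := (hd1 x).sub (hasDerivAt_id x)
      rw [sub_self] at this
      exact this
    have h2 := is_const_of_deriv_eq_zero (fun x => (h1 x).differentiableAt)
      (fun x => (h1 x).deriv) t 0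
    simp only [hγ0, sub_zero] at h2
    linarith
  have hp0 : (γ 0).2.2 = 0 := by rw [hγ0]
  have hbd : ∀ t ≥ 0, |(γ t).2.2| ≤ B := by
    intro t ht0
    have h1 := barrier (g := fun t => (γ t).2.2 ^ 2)
      (g' := fun t => 2 * (γ t).2.2 * (-cs * cl (γ t).2.2 + s (γ t).1 * ft (γ t).2.1))
      (c := B ^ 2) ht0
      (fun x _ => ((hd3 x).pow 2).continuousAt.continuousWithinAt)
      (fun x _ => by
        have := (hd3 x).pow 2
        exact this.congr_deriv (by norm_num))
      (fun x _ hx => by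
        show 2 * (γ x).2.2 * (-cs * cl (γ x).2.2 + s (γ x).1 * ft (γ x).2.1) ≤ 0
        have hx' : B ^ 2 < (γ x).2.2 ^ 2 := hx
        have hx2 : B < |(γ x).2.2| := by
          have := sq_lt_sq.1 hx'
          rwa [abs_of_pos hB0] at this
        have e1 : |s (γ x).1 * ft (γ x).2.1| ≤ K := by
          rw [abs_mul]
          calc _ ≤ 1 * K := mul_le_mul (hs2 _) (hf2 _) (abs_nonneg _) (by norm_num)
            _ = K := one_mul K
        have e2 : cs * B = K := by rw [hB]; field_simp
        rw [abs_le] at e1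
        rcases lt_abs.1 hx2 with h | h
        · have e3 : cl (γ x).2.2 = B := by
            rw [hcl]
            show max (-B) (min B (γ x).2.2) = B
            rw [min_eq_left h.le, max_eq_right (by linarith)]
          rw [e3]
          apply mul_nonpos_of_nonneg_of_nonpos
          · linarith
          · linarith [e1.2]
        · have e3 : cl (γ x).2.2 = -B := by
            rw [hcl]
            show max (-B) (min B (γ x).2.2) = -B
            rw [min_eq_right (by linarith), max_eq_left (by linarith)]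
          rw [e3]
          apply mul_nonpos_of_nonpos_of_nonneg
          · linarith
          · linarith [e1.1])
      (by
        show (γ 0).2.2 ^ 2 ≤ B ^ 2
        rw [hp0, zero_pow (by norm_num)]; positivity)
    have h2 : (γ t).2.2 ^ 2 ≤ B ^ 2 := h1
    exact abs_le_of_sq_le_sq h2 hB0.le
  have hcleq : ∀ t ≥ 0, cl (γ t).2.2 = (γ t).2.2 := by
    intro t ht0
    have := abs_le.1 (hbd t ht0)
    rw [hcl]
    show max (-B) (min B (γ t).2.2) = (γ t).2.2
    rw [min_eq_right this.2, max_eq_right this.1]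
  refine ⟨fun t => (γ t).2.1, fun t => (γ t).2.2, by show (γ 0).2.1 = l; rw [hγ0], hp0,
    ?_, ?_, ?_⟩
  · intro t ht0
    rw [← hB]
    exact hbd t ht0
  · intro t ht0
    have := hd2 t
    rw [hcleq t ht0] at this
    exact this
  · intro t ht0
    have := hd3 t
    rw [hcleq t ht0, ht t, hs, hft] at this
    exact this

theorem subp : T_SUBP := by
  intro f K top cs m y hL htop htop1 hft hff hcs hm hmt hy hypos ε hε
  obtain ⟨δ, hδ, hfpos⟩ := hff
  have hK := hL.K0
  obtain ⟨hy0, hyc, hyd⟩ := hy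
  have hfc : Continuous f := by
    have : LipschitzWith (Real.toNNReal K) f := LipschitzWith.of_dist_le_mul (fun x y => by
      rw [Real.dist_eq, Real.dist_eq, Real.coe_toNNReal K hK.le]
      exact hL.lip x y)
    exact this.continuous
  have hfb : ∀ a, |f a| ≤ K := by
    intro a
    by_cases ha : a ∈ Icc (0 : ℝ) 1
    · have := hL.lip a 0
      rw [hL.f0, sub_zero, sub_zero, abs_of_nonneg ha.1] at this
      refine this.trans ?_
      calc K * a ≤ K * 1 := by gcongr; exact ha.2
        _ = K := mul_one K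
    · rw [hL.out a ha, abs_zero]; exact hK.le
  obtain ⟨η, hη⟩ : ∃ η : ℝ → ℝ, η = fun l => y (top - l) := ⟨_, rfl⟩
  have hηc : ContinuousOn η (Icc 0 top) := by
    rw [hη]
    exact hyc.comp (by fun_prop) (fun l hl => ⟨by linarith [hl.2], by linarith [hl.1]⟩)
  have hηtop : η top = 0 := by
    rw [hη]; show y (top - top) = 0; rw [sub_self, hy0]
  have hηpos : ∀ l, m ≤ l → l < top → 0 < η l := by
    intro l h1 h2
    rw [hη]
    exact hypos (top - l) ⟨by linarith, by linarith⟩
  have hηd : ∀ l ∈ Ioo 0 top, HasDerivAt η (-(f l - cs * √(2 * max (η l) 0))) l := by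
    intro l hl
    have h1 := hyd (top - l) ⟨by linarith [hl.2], by linarith [hl.1]⟩
    have h2 := h1.comp_const_sub top l
    rw [hη]
    refine h2.congr_deriv ?_
    show -(f (top - (top - l)) - cs * √(2 * max (y (top - l)) 0)) = _
    rw [show top - (top - l) = l by ring]
  obtain ⟨la, hla1, hla2, hla4, hla5⟩ := exists_la (μ := max (top - ε) (top - δ))
    (hηc.mono (Icc_subset_Icc_left hm)) hmt (max_lt (by linarith) (by linarith)) hηtop hηpos
  have hla2' : top - ε < la := (le_max_left _ _).trans_lt hla2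
  have hla3 : top - δ < la := (le_max_right _ _).trans_lt hla2
  obtain ⟨l, hl⟩ : ∃ l, l = (la + top) / 2 := ⟨_, rfl⟩
  have hl1 : la < l := by rw [hl]; linarith
  have hl2 : l < top := by rw [hl]; linarith
  -- lower bound of f
  obtain ⟨xm, hxm, hfm⟩ := isCompact_Icc (a := la) (b := l) |>.exists_isMinOn
    ⟨la, left_mem_Icc.2 hl1.le⟩ hfc.continuousOn
  have hfm0 : 0 < f xm := hfpos xm ⟨by linarith [hxm.1], by linarith [hxm.2]⟩
  have hfm1 : ∀ q, la ≤ q → f xm ≤ f (min q l) := fun q hq => hfm ⟨le_min hq hl1.le, min_le_right _ _⟩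
  obtain ⟨B, hB⟩ : ∃ B, B = K / cs := ⟨_, rfl⟩
  have hB0 : 0 < B := by rw [hB]; positivity
  obtain ⟨w, hw⟩ : ∃ w, w = (l - la) / (2 * B) := ⟨_, rfl⟩
  have hw0 : 0 < w := by
    rw [hw]
    have : 0 < l - la := by linarith
    positivity
  have hwB : B * w = (l - la) / 2 := by rw [hw]; field_simp
  obtain ⟨q, p, hq0, hp0, hpB, hqd, hpd⟩ := exists_sol (l := l) hK hcs hw0 hL.lip hfb
  rw [← hB] at hpB
  obtain ⟨s, hs⟩ : ∃ s : ℝ → ℝ, s = fun t => max 0 (min 1 (t / w)) := ⟨_, rfl⟩
  have hpd' : ∀ t ≥ 0, HasDerivAt p (-cs * p t + s t * f (min (q t) l)) t := by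
    rw [hs]; exact hpd
  have hs0 : ∀ t, 0 ≤ s t := by intro t; rw [hs]; exact le_max_left _ _
  have hs1 : ∀ t, s t ≤ 1 := by
    intro t; rw [hs]; exact max_le zero_le_one (min_le_left _ _)
  have hs2 : ∀ t ≥ w, s t = 1 := by
    intro t ht
    rw [hs]
    show max 0 (min 1 (t / w)) = 1
    rw [min_eq_left (by rw [le_div_iff₀ hw0]; linarith), max_eq_right zero_le_one]
  have hs3 : ∀ t > 0, 0 < s t := by
    intro t ht
    rw [hs]
    exact lt_max_of_lt_right (lt_min one_pos (by positivity))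
  -- lower bound of q
  have hql : ∀ t ≥ 0, l - B * t ≤ q t := by
    intro t ht
    have := mono_of (g := fun t => q t + B * t) (g' := fun t => -p t + B) ht
      (fun x hx => by
        have := (hqd x hx.1).add ((hasDerivAt_id x).const_mul B)
        exact this.congr_deriv (by ring))
      (fun x hx => by have := (abs_le.1 (hpB x hx.1.le)).2; linarith)
    simp only [hq0, mul_zero, add_zero] at this
    linarith
  have hqw : ∀ t, 0 ≤ t → t ≤ w → la < q t := by
    intro t ht ht2
    have h1 := hql t ht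
    have h2 : B * t ≤ B * w := by gcongr
    rw [hwB] at h2
    linarith
  -- q reaches la
  have hra : ∃ t ≥ 0, q t ≤ la := by
    by_contra hcon
    push Not at hcon
    obtain ⟨T, hT⟩ : ∃ T, T = w + (B - p w + cs * q w + 1) / f xm := ⟨_, rfl⟩
    have h0 : 0 ≤ B - p w := by have := (abs_le.1 (hpB w hw0.le)).2; linarith
    have h0' : 0 ≤ cs * q w := mul_nonneg hcs.le (by have := hcon w hw0.le; linarith)
    have hTw : w ≤ T := by
      rw [hT]
      have : 0 ≤ (B - p w + cs * q w + 1) / f xm := by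
        apply div_nonneg _ hfm0.le
        linarith
      linarith
    have h1 := mono_of (g := fun t => p t - cs * q t - f xm * t)
      (g' := fun t => s t * f (min (q t) l) - f xm) hTw
      (fun x hx => by
        have hx0 : 0 ≤ x := hw0.le.trans hx.1
        have := ((hpd' x hx0).sub ((hqd x hx0).const_mul cs)).sub
          ((hasDerivAt_id x).const_mul (f xm))
        exact this.congr_deriv (by ring))
      (fun x hx => by
        show 0 ≤ s x * f (min (q x) l) - f xm
        rw [hs2 x hx.1.le, one_mul]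
        have := hfm1 (q x) (hcon x (hw0.le.trans hx.1.le)).le
        linarith)
    have h1' : p w - cs * q w - f xm * w ≤ p T - cs * q T - f xm * T := h1
    have h2 := (abs_le.1 (hpB T (hw0.le.trans hTw))).2
    have h3 : 0 ≤ cs * q T := mul_nonneg hcs.le
      (by have := hcon T (hw0.le.trans hTw); linarith)
    have h4 : f xm * T = f xm * w + (B - p w + cs * q w + 1) := by
      rw [hT]; field_simp
    linarith
  obtain ⟨t0, ht0, hqt0⟩ := hra
  have hqc : ∀ a b, 0 ≤ a → ContinuousOn q (Icc a b) := fun a b ha x hx =>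
    (hqd x (ha.trans hx.1)).continuousAt.continuousWithinAt
  have hpc : ∀ a b, 0 ≤ a → ContinuousOn p (Icc a b) := fun a b ha x hx =>
    (hpd' x (ha.trans hx.1)).continuousAt.continuousWithinAt
  obtain ⟨za, hza, hqza, hqza2⟩ := hitting (g := q) (c := la) ht0 (hqc 0 t0 le_rfl)
    (by rw [hq0]; exact hl1) hqt0
  have hwza : w < za := by
    by_contra hcon
    push Not at hcon
    have := hqw za hza.1.le hcon
    linarith
  have hpA : ∀ t, 0 < t → t ≤ za → 0 < p t := by
    intro t h1 h2
    have := strictMono_of (g := fun t => Real.exp (cs * t) * p t)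
      (g' := fun t => Real.exp (cs * t) * (s t * f (min (q t) l))) h1
      (fun x hx => by
        have e1 : HasDerivAt (fun t => Real.exp (cs * t)) (Real.exp (cs * x) * cs) x := by
          have := ((hasDerivAt_id x).const_mul cs).exp
          simpa using this
        have := e1.mul (hpd' x hx.1)
        exact this.congr_deriv (by ring))
      (fun x hx => by
        have e1 := hs3 x hx.1
        have e2 := hfm1 (q x) (hqza2 x ⟨hx.1.le, hx.2.trans_le h2⟩).le
        have e3 : 0 < f (min (q x) l) := hfm0.trans_le e2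
        positivity)
    simp only [hp0, mul_zero] at this
    exact (pos_iff_pos_of_mul_pos this).1 (Real.exp_pos _)
  have hpa := hpA za hza.1 le_rfl
  obtain ⟨h, hh⟩ : ∃ h, h = η la := ⟨_, rfl⟩
  have hh0 : 0 < h := by rw [hh]; exact hηpos la hla1.le hla4
  obtain ⟨κ, hκ⟩ : ∃ κ, κ = min (p za ^ 2 / 2) h := ⟨_, rfl⟩
  have hκ0 : 0 < κ := by rw [hκ]; exact lt_min (by positivity) hh0
  have hκ1 : κ ≤ p za ^ 2 / 2 := by rw [hκ]; exact min_le_left _ _
  have hκ2 : κ ≤ h := by rw [hκ]; exact min_le_right _ _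
  obtain ⟨ps, hps⟩ : ∃ ps, ps = √κ := ⟨_, rfl⟩
  have hps0 : 0 < ps := by rw [hps]; exact Real.sqrt_pos.2 hκ0
  have hps2 : ps ^ 2 = κ := by rw [hps]; exact Real.sq_sqrt hκ0.le
  have hpps : ps < p za := lt_of_pow_lt_pow_left₀ 2 hpa.le (by rw [hps2]; linarith)
  -- q reaches m or p becomes small
  have hgc : ∀ b, ContinuousOn (fun t => min (p t - ps) (q t - m)) (Icc za b) := fun b =>
    ((hpc za b hza.1.le).sub continuousOn_const).inf ((hqc za b hza.1.le).sub continuousOn_const)
  have hrb : ∃ b ≥ za, min (p b - ps) (q b - m) ≤ 0 := by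
    by_contra hcon
    push Not at hcon
    obtain ⟨b, hb⟩ : ∃ b, b = za + (la - m) / ps := ⟨_, rfl⟩
    have hbz : za ≤ b := by
      rw [hb]
      have : 0 ≤ (la - m) / ps := div_nonneg (by linarith) hps0.le
      linarith
    have := mono_of (g := fun t => -q t - ps * t) (g' := fun t => p t - ps) hbz
      (fun x hx => by
        have := (hqd x (hza.1.le.trans hx.1)).neg.sub ((hasDerivAt_id x).const_mul ps)
        exact this.congr_deriv (by ring))
      (fun x hx => by have := (lt_min_iff.1 (hcon x hx.1.le)).1; exact this.le)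
    simp only [hqza] at this
    have h1 := (lt_min_iff.1 (hcon b hbz)).2
    have h2 : ps * b = ps * za + (la - m) := by rw [hb]; field_simp
    linarith
  obtain ⟨b0, hb0, hgb0⟩ := hrb
  obtain ⟨z1, hz1, hgz1, hgz2⟩ := hitting (g := fun t => min (p t - ps) (q t - m)) (c := 0) hb0
    (hgc b0) (by rw [hqza]; exact lt_min (by linarith) (by linarith)) hgb0
  have hz10 : 0 < z1 := hza.1.trans hz1.1
  have hqB : ∀ t ∈ Icc za z1, m ≤ q t ∧ q t ≤ la ∧ ps ≤ p t := by
    intro t ht
    have hmin : 0 ≤ min (p t - ps) (q t - m) := by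
      rcases eq_or_lt_of_le ht.2 with e | hlt
      · rw [e]; exact hgz1.ge
      · exact (hgz2 t ⟨ht.1, hlt⟩).le
    obtain ⟨e1, e2⟩ := le_min_iff.1 hmin
    refine ⟨by linarith, ?_, by linarith⟩
    have := mono_of (g := fun t => -q t) (g' := fun t => p t) ht.1
      (fun x hx => by
        have := (hqd x (hza.1.le.trans hx.1)).neg
        exact this.congr_deriv (by ring))
      (fun x hx => by
        have := (lt_min_iff.1 (hgz2 x ⟨hx.1.le, hx.2.trans_le ht.2⟩)).1
        show 0 ≤ p x
        linarith)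
    simp only [hqza] at this
    linarith
  -- energy
  have hE := barrier (g := fun t => -(p t ^ 2 / 2 - η (q t) + h))
    (g' := fun t => -(cs * p t * (√(2 * max (η (q t)) 0) - p t))) (c := -κ) hz1.1.le
    (by
      have h1 : ContinuousOn (fun t => η (q t)) (Icc za z1) :=
        hηc.comp (hqc za z1 hza.1.le) (fun t ht => ⟨hm.trans (hqB t ht).1,
          (hqB t ht).2.1.trans hla4.le⟩)
      exact (((((hpc za z1 hza.1.le).pow 2).div_const 2).sub h1).add continuousOn_const).neg)
    (fun t ht => by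
      have ht0 : 0 ≤ t := hza.1.le.trans ht.1.le
      have hq1 := hqB t (Ioo_subset_Icc_self ht)
      have hq2 : m < q t := by
        have := (lt_min_iff.1 (hgz2 t ⟨ht.1.le, ht.2⟩)).2
        linarith
      have e1 := (hηd (q t) ⟨by linarith, by linarith⟩).comp t (hqd t ht0)
      have e2 := (((hpd' t ht0).pow 2).div_const 2).sub e1
      have e3 := (e2.add_const h).neg
      refine e3.congr_deriv ?_
      rw [hs2 t (hwza.le.trans ht.1.le), min_eq_left (by linarith)]
      push_cast
      ring)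
    (fun t ht hlt => by
      have hq1 := hqB t (Ioo_subset_Icc_self ht)
      have hη0 : h ≤ η (q t) := by rw [hh]; exact hla5 (q t) ⟨hq1.1, hq1.2.1⟩
      have hp1 : p t ^ 2 < 2 * η (q t) := by linarith
      have hp2 : p t ≤ √(2 * max (η (q t)) 0) := by
        apply Real.le_sqrt_of_sq_le
        rw [max_eq_left (by linarith)]
        exact hp1.le
      have hp3 : 0 < p t := by linarith
      have : 0 ≤ cs * p t * (√(2 * max (η (q t)) 0) - p t) := by
        apply mul_nonneg (by positivity)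
        linarith
      linarith)
    (by
      show -(p za ^ 2 / 2 - η (q za) + h) ≤ -κ
      rw [hqza, ← hh]
      linarith)
  have hE1 : -(p z1 ^ 2 / 2 - η (q z1) + h) ≤ -κ := hE
  have hz1B := hqB z1 (right_mem_Icc.2 hz1.1.le)
  have hpz1 : ps < p z1 := by
    have hη0 : h ≤ η (q z1) := by rw [hh]; exact hla5 (q z1) ⟨hz1B.1, hz1B.2.1⟩
    apply lt_of_pow_lt_pow_left₀ 2 (by linarith)
    rw [hps2]
    linarith
  have hqz1 : q z1 = m := by
    rcases min_choice (p z1 - ps) (q z1 - m) with e | e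
    · have : p z1 - ps = 0 := by rw [← e]; exact hgz1
      linarith
    · have : q z1 - m = 0 := by rw [← e]; exact hgz1
      linarith
  have hppos : ∀ t, 0 < t → t ≤ z1 → 0 < p t := by
    intro t h1 h2
    rcases le_or_gt t za with h3 | h3
    · exact hpA t h1 h3
    · have := (hqB t ⟨h3.le, h2⟩).2.2
      linarith
  have hqle : ∀ t, 0 ≤ t → t ≤ z1 → q t ≤ l := by
    intro t h1 h2
    have := mono_of (g := fun t => -q t) (g' := fun t => p t) h1
      (fun x hx => by
        have := (hqd x hx.1).neg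
        exact this.congr_deriv (by ring))
      (fun x hx => (hppos x hx.1 (hx.2.le.trans h2)).le)
    simp only [hq0] at this
    linarith
  -- the profile on (-∞, z1]
  have r1 := glue (F := fun _ => l) (G := q) (F' := fun _ => 0) (G' := fun t => -p t) (c := 0)
    (fun x _ => hasDerivAt_const x l) (fun x hx => hqd x hx) hq0.symm (by simp [hp0])
  have hsz : s 0 = 0 := by rw [hs]; simp
  have r2 := glue (F := fun _ => (0 : ℝ)) (G := fun t => -p t) (F' := fun _ => 0)
    (G' := fun t => -(-cs * p t + s t * f (min (q t) l))) (c := 0)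
    (fun x _ => hasDerivAt_const x (0 : ℝ)) (fun x hx => (hpd' x hx).neg) (by simp [hp0])
    (by simp [hp0, hsz])
  have hsc : Continuous s := by
    rw [hs]
    exact continuous_const.max (continuous_const.min (continuous_id.div_const w))
  have r3 : Continuous (fun x => if x ≤ 0 then (0 : ℝ) else
      -(-cs * p x + s x * f (min (q x) l))) := by
    apply continuous_if_le continuous_id continuous_const
    · exact continuousOn_const
    · have hpc' : ContinuousOn p {x : ℝ | 0 ≤ x} := fun x hx =>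
        (hpd' x hx).continuousAt.continuousWithinAt
      have hqc' : ContinuousOn q {x : ℝ | 0 ≤ x} := fun x hx =>
        (hqd x hx).continuousAt.continuousWithinAt
      exact ((continuousOn_const.mul hpc').add (hsc.continuousOn.mul
        (hfc.comp_continuousOn (hqc'.inf continuousOn_const)))).neg
    · intro x hx
      have hx' : x = 0 := hx
      rw [hx', hp0, hsz]; simp
  obtain ⟨r, hr1, hr2, hr3, hr4, hr5⟩ := extend (z1 := z1) (l := l) (m := m) hz10 (by linarith)
    (fun x _ => r1 x) (fun x _ => r2 x) r3.continuousOn (fun x hx => if_pos hx)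
    (fun x hx => if_pos hx) (fun x hx => if_pos hx)
    (by rw [if_neg (not_le.2 hz10)]; exact hqz1)
    (by rw [if_neg (not_le.2 hz10)]; linarith)
  refine ⟨l, z1, r, by linarith, by linarith, hl2, hz10, hr1, ?_, ?_, ?_, hr3, hr4, hr5, ?_⟩
  · intro z hz
    rw [(hr2 z (hz.trans hz10.le)).1, if_pos hz]
  · intro z hz
    rw [(hr2 z hz.2).2.1, if_neg (not_le.2 hz.1)]
    have := hppos z hz.1 hz.2
    linarith
  · rw [(hr2 z1 le_rfl).1, if_neg (not_le.2 hz10)]; exact hqz1
  · intro z hz
    obtain ⟨e1, e2, e3⟩ := hr2 z hz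
    rw [e1, e2, e3]
    rcases le_or_gt z 0 with h0 | h0
    · rw [if_pos h0, if_pos h0, if_pos h0]
      have := hfpos l ⟨by linarith, hl2⟩
      linarith
    · rw [if_neg (not_le.2 h0), if_neg (not_le.2 h0), if_neg (not_le.2 h0)]
      rw [min_eq_left (hqle z h0.le hz)]
      rcases le_or_gt w z with h3 | h3
      · rw [hs2 z h3]
        apply le_of_eq
        ring
      · have h4 := hqw z h0.le h3.le
        have h5 := hfpos (q z) ⟨by linarith, (hqle z h0.le hz).trans_lt hl2⟩
        have h6 := hs1 z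
        have h7 : 0 ≤ (1 - s z) * f (q z) := mul_nonneg (by linarith) h5.le
        linarith

end Pool.Agent.H78.RF
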